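import Pool.Agent.BHH57.Var2

/-!
MP_076557_pr, helper57: almost sure convergence.
-/

set_option autoImplicit false

open MeasureTheory ProbabilityTheory Set Filter Topology
open scoped ENNReal

namespace Pool.Agent.BHH57

open Pool.Agent.TSPd97 Pool.Agent.TSPd97.PO

/-- convergence along the fourth powers is enough for monotone sequences -/
lemma tendsto_of_fourth {a : ℕ → ℝ} {θ β : ℝ} (hθ : 0 < θ) (ha0 : ∀ n, 0 ≤ a n)
    (hmono : Monotone a)
    (h : Tendsto (fun k : ℕ => a ((k + 1) ^ 4) / (((k : ℝ) + 1) ^ 4) ^ θ) atTop (𝓝 β)) :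
    Tendsto (fun n : ℕ => a n / (n : ℝ) ^ θ) atTop (𝓝 β) := by
  set u : ℕ → ℝ := fun k => a ((k + 1) ^ 4) / (((k : ℝ) + 1) ^ 4) ^ θ with hu
  set r : ℕ → ℝ := fun k => (((k : ℝ) + 2) ^ 4) ^ θ / (((k : ℝ) + 1) ^ 4) ^ θ with hr
  have hrlim : Tendsto r atTop (𝓝 1) := by
    have h1 : Tendsto (fun k : ℕ => ((1 : ℝ) + 1 / ((k : ℝ) + 1)) ^ 4) atTop (𝓝 ((1 + 0) ^ 4)) :=
      (tendsto_const_nhds.add tendsto_one_div_add_atTop_nhds_zero_nat).pow 4
    have h2 := h1.rpow_const (p := θ) (Or.inr hθ.le)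
    have h3 : ((1 + 0 : ℝ) ^ 4) ^ θ = 1 := by simp
    rw [h3] at h2
    refine h2.congr (fun k => ?_)
    simp only [hr]
    rw [← Real.div_rpow (by positivity) (by positivity), ← div_pow]
    congr 2
    field_simp
    ring
  set j : ℕ → ℕ := fun n => Nat.sqrt (Nat.sqrt n) - 1 with hj
  have hjlim : Tendsto j atTop atTop := by
    rw [tendsto_atTop]
    intro b
    filter_upwards [eventually_ge_atTop (((b + 1) * (b + 1)) * ((b + 1) * (b + 1)))] with n hn
    have h1 : (b + 1) * (b + 1) ≤ Nat.sqrt n := Nat.le_sqrt.2 hn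
    have h2 : b + 1 ≤ Nat.sqrt (Nat.sqrt n) := Nat.le_sqrt.2 h1
    simp only [hj]
    omega
  have hlow : Tendsto (fun n => u (j n) / r (j n)) atTop (𝓝 (β / 1)) :=
    (h.div hrlim one_ne_zero).comp hjlim
  have hupp : Tendsto (fun n => u (j n + 1) * r (j n)) atTop (𝓝 (β * 1)) :=
    (((tendsto_add_atTop_iff_nat 1).2 h).mul hrlim).comp hjlim
  rw [div_one] at hlow
  rw [mul_one] at hupp
  have hsq : ∀ n : ℕ, 1 ≤ n → (j n + 1) ^ 4 ≤ n ∧ n < (j n + 2) ^ 4 := by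
    intro n hn
    have h0 : 1 ≤ Nat.sqrt (Nat.sqrt n) := by
      apply Nat.le_sqrt.2
      apply Nat.le_sqrt.2
      simpa using hn
    have h1 : Nat.sqrt (Nat.sqrt n) * Nat.sqrt (Nat.sqrt n) ≤ Nat.sqrt n := Nat.sqrt_le _
    have h2 : Nat.sqrt n * Nat.sqrt n ≤ n := Nat.sqrt_le n
    have h3 : Nat.sqrt n < (Nat.sqrt (Nat.sqrt n) + 1) * (Nat.sqrt (Nat.sqrt n) + 1) :=
      Nat.lt_succ_sqrt (Nat.sqrt n)
    have h4 : n < (Nat.sqrt n + 1) * (Nat.sqrt n + 1) := Nat.lt_succ_sqrt n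
    have e1 : j n + 1 = Nat.sqrt (Nat.sqrt n) := by
      simp only [hj]
      omega
    have e2 : j n + 2 = Nat.sqrt (Nat.sqrt n) + 1 := by omega
    rw [e2, e1]
    set s := Nat.sqrt (Nat.sqrt n) with hs
    constructor
    · calc s ^ 4 = (s * s) * (s * s) := by ring
        _ ≤ Nat.sqrt n * Nat.sqrt n := Nat.mul_le_mul h1 h1
        _ ≤ n := h2
    · calc n < (Nat.sqrt n + 1) * (Nat.sqrt n + 1) := h4
        _ ≤ ((s + 1) * (s + 1)) * ((s + 1) * (s + 1)) := Nat.mul_le_mul h3 h3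
        _ = (s + 1) ^ 4 := by ring
  refine tendsto_of_tendsto_of_tendsto_of_le_of_le' hlow hupp ?_ ?_
  · filter_upwards [eventually_ge_atTop 1] with n hn
    obtain ⟨h1, h2⟩ := hsq n hn
    have hn0 : (0 : ℝ) < n := by exact_mod_cast hn
    have h1' : (((j n : ℝ) + 1) ^ 4) ≤ n := by exact_mod_cast h1
    have h2' : (n : ℝ) ≤ ((j n : ℝ) + 2) ^ 4 := by exact_mod_cast h2.le
    have hp : 0 < (n : ℝ) ^ θ := Real.rpow_pos_of_pos hn0 θ
    have e : u (j n) / r (j n) = a ((j n + 1) ^ 4) / (((j n : ℝ) + 2) ^ 4) ^ θ := by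
      simp only [hu, hr]
      have : 0 < (((j n : ℝ) + 1) ^ 4) ^ θ := by positivity
      field_simp
    rw [e]
    exact div_le_div₀ (ha0 n) (hmono h1) hp (Real.rpow_le_rpow hn0.le h2' hθ.le)
  · filter_upwards [eventually_ge_atTop 1] with n hn
    obtain ⟨h1, h2⟩ := hsq n hn
    have hn0 : (0 : ℝ) < n := by exact_mod_cast hn
    have h1' : (((j n : ℝ) + 1) ^ 4) ≤ n := by exact_mod_cast h1
    have e : u (j n + 1) * r (j n) = a ((j n + 2) ^ 4) / (((j n : ℝ) + 1) ^ 4) ^ θ := by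
      simp only [hu, hr]
      have e3 : (((j n + 1 : ℕ) : ℝ) + 1) = (j n : ℝ) + 2 := by
        push_cast
        ring
      rw [e3]
      have : 0 < (((j n : ℝ) + 2) ^ 4) ^ θ := by positivity
      have e4 : j n + 1 + 1 = j n + 2 := rfl
      rw [e4]
      field_simp
    rw [e]
    exact div_le_div₀ (ha0 _) (hmono h2.le) (by positivity)
      (Real.rpow_le_rpow (by positivity) h1' hθ.le)

lemma tsp_mono_seq {X : Type*} [PseudoMetricSpace X] (x : ℕ → X) :
    Monotone fun n : ℕ => tsp (fun i : Fin n => x i) := by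
  refine monotone_nat_of_le_succ (fun n => ?_)
  rw [← TM_ms, ← TM_ms, ms_succAbove (fun i : Fin (n + 1) => x i) (Fin.last n)]
  have h : ms (fun k : Fin n => x ((Fin.last n).succAbove k : Fin (n + 1)))
      = ms (fun i : Fin n => x i) := by
    congr 1
    funext k
    simp [Fin.succAbove_last]
  rw [h]
  exact TM_le_cons _ _

universe u

/-- the Beardwood-Halton-Hammersley theorem: almost sure convergence -/
theorem as_limit (d : ℕ) (hd : 2 ≤ d) {β : ℝ}
    (hβ : Tendsto (fun n : ℕ => meanTSP d n / (n : ℝ) ^ (((d : ℝ) - 1) / (d : ℝ))) atTop (𝓝 β))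
    {Ω : Type u} [MeasurableSpace Ω] (P : Measure Ω) [IsProbabilityMeasure P]
    (X : ℕ → Ω → EuclideanSpace ℝ (Fin d)) (hm : ∀ i, Measurable (X i)) (hind : iIndepFun X P)
    (hlaw : ∀ i, P.map (X i) = (volume : Measure (EuclideanSpace ℝ (Fin d))).restrict
      {x | ∀ j, x j ∈ Set.Icc (0 : ℝ) 1}) :
    ∀ᵐ ω ∂P, Tendsto (fun n : ℕ => tsp (fun i : Fin n => X i ω) /
      (n : ℝ) ^ (((d : ℝ) - 1) / (d : ℝ))) atTop (𝓝 β) := by
  have hd' : (2 : ℝ) ≤ d := by exact_mod_cast hd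
  set θ : ℝ := ((d : ℝ) - 1) / (d : ℝ) with hθ
  have hθ0 : 0 < θ := div_pos (by linarith) (by linarith)
  have hθ1 : 1 / 2 ≤ θ := by
    rw [hθ, div_le_div_iff₀ (by norm_num) (by linarith)]
    linarith
  -- the law of the first n points
  have hmap : ∀ n : ℕ, P.map (fun ω (i : Fin n) => X i ω) = Measure.pi fun _ => uq d := by
    intro n
    have h1 : iIndepFun (fun (i : Fin n) => X i) P := hind.precomp Fin.val_injective
    have h2 := (iIndepFun_iff_map_fun_eq_pi_map (f := fun (i : Fin n) => X i) (μ := P)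
      fun i => (hm i).aemeasurable).1 h1
    rw [h2]
    congr 1
    funext i
    exact hlaw i
  have hmeas : ∀ n : ℕ, Measurable fun ω (i : Fin n) => X i ω := fun n =>
    measurable_pi_lambda _ fun i => hm i
  set Z : ℕ → Ω → ℝ := fun n ω => tsp (fun i : Fin n => X i ω) - meanTSP d n with hZ
  have hZm : ∀ n, Measurable (Z n) := fun n =>
    ((measurable_tsp d n).comp (hmeas n)).sub_const _
  have hsqm : ∀ n : ℕ, Measurable fun y : Fin n → Vd d => (tsp y - meanTSP d n) ^ 2 := fun n =>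
    ((measurable_tsp d n).sub_const _).pow_const 2
  have hsqi : ∀ n : ℕ, Integrable (fun y : Fin n → Vd d => (tsp y - meanTSP d n) ^ 2)
      (Measure.pi fun _ => uq d) := by
    intro n
    obtain ⟨C, hC0, hC⟩ := tsp_le_rpow d hd
    refine Integrable.of_bound (hsqm n).aestronglyMeasurable
      ((C * (n : ℝ) ^ θ + |meanTSP d n|) ^ 2) ?_
    filter_upwards [ae_inj d (by omega) n] with y hy
    rw [Real.norm_of_nonneg (by positivity), ← sq_abs]
    refine pow_le_pow_left₀ (abs_nonneg _) ?_ 2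
    calc |tsp y - meanTSP d n| ≤ |tsp y| + |meanTSP d n| := abs_sub _ _
      _ ≤ _ := by
          rw [abs_of_nonneg (tsp_nonneg y)]
          have := hC n y hy.2
          linarith
  have hZi : ∀ n, Integrable (fun ω => (Z n ω) ^ 2) P := by
    intro n
    have h1 := hsqi n
    rw [← hmap n] at h1
    exact h1.comp_measurable (hmeas n)
  have hZvar : ∀ n, ∫ ω, (Z n ω) ^ 2 ∂P ≤ 128 * d * (n : ℝ) ^ θ := by
    intro n
    have h1 := var_tsp d hd n
    rw [← hmap n, integral_map (hmeas n).aemeasurable (hsqm n).aestronglyMeasurable] at h1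
    exact h1
  -- Borel-Cantelli
  have hBC : ∀ ε : ℝ, 0 < ε → ∀ᵐ ω ∂P, ∀ᶠ k : ℕ in atTop,
      |Z ((k + 1) ^ 4) ω| < ε * (((k : ℝ) + 1) ^ 4) ^ θ := by
    intro ε hε
    set A : ℕ → Set Ω := fun k =>
      {ω | (ε * (((k : ℝ) + 1) ^ 4) ^ θ) ^ 2 ≤ (Z ((k + 1) ^ 4) ω) ^ 2} with hA
    have hbound : ∀ k : ℕ, P (A k) ≤ ENNReal.ofReal (128 * d / ε ^ 2 * (1 / ((k : ℝ) + 1) ^ 2)) := by
      intro k
      have hk0 : (0 : ℝ) < (k : ℝ) + 1 := by positivity
      have hk1 : (1 : ℝ) ≤ (k : ℝ) + 1 := by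
        have : (0 : ℝ) ≤ k := by positivity
        linarith
      set w : ℝ := (((k : ℝ) + 1) ^ 4) ^ θ with hw
      have hw0 : 0 < w := by positivity
      have h1 := mul_meas_ge_le_integral_of_nonneg
        (Filter.Eventually.of_forall (fun ω => sq_nonneg (Z ((k + 1) ^ 4) ω)))
        (hZi ((k + 1) ^ 4)) ((ε * w) ^ 2)
      have h2 := h1.trans (hZvar ((k + 1) ^ 4))
      have h3 : (((k + 1) ^ 4 : ℕ) : ℝ) ^ θ = w := by
        rw [hw]
        push_cast
        rfl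
      rw [h3] at h2
      have h4 : ((k : ℝ) + 1) ^ 2 ≤ w := by
        rw [hw]
        have h5 : (((k : ℝ) + 1) ^ 4) ^ θ ≥ (((k : ℝ) + 1) ^ 4) ^ (1 / 2 : ℝ) :=
          Real.rpow_le_rpow_of_exponent_le (one_le_pow₀ hk1) hθ1
        have h6 : (((k : ℝ) + 1) ^ 4) ^ (1 / 2 : ℝ) = ((k : ℝ) + 1) ^ 2 := by
          rw [← Real.sqrt_eq_rpow]
          have : ((k : ℝ) + 1) ^ 4 = (((k : ℝ) + 1) ^ 2) ^ 2 := by ring
          rw [this, Real.sqrt_sq (by positivity)]
        linarith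
      have h7 : P.real (A k) ≤ 128 * d / ε ^ 2 * (1 / ((k : ℝ) + 1) ^ 2) := by
        have h8 : P.real (A k) ≤ 128 * d / ε ^ 2 * (1 / w) := by
          have h9 : (ε * w) ^ 2 * P.real (A k) ≤ 128 * d * w := h2
          rw [show 128 * (d : ℝ) / ε ^ 2 * (1 / w) = 128 * d * w / (ε * w) ^ 2 by field_simp]
          rw [le_div_iff₀ (by positivity)]
          linarith
        refine h8.trans ?_
        apply mul_le_mul_of_nonneg_left _ (by positivity)
        exact one_div_le_one_div_of_le (by positivity) h4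
      rw [← ofReal_measureReal]
      exact ENNReal.ofReal_le_ofReal h7
    have hsum : ∑' k, P (A k) ≠ ∞ := by
      have hs : Summable fun k : ℕ => 128 * (d : ℝ) / ε ^ 2 * (1 / ((k : ℝ) + 1) ^ 2) := by
        apply Summable.mul_left
        have h1 := (summable_nat_add_iff 1).2 (Real.summable_one_div_nat_pow.2 (by norm_num : 1 < 2))
        refine h1.congr (fun k => ?_)
        push_cast
        rfl
      refine ne_top_of_le_ne_top ?_ (ENNReal.tsum_le_tsum hbound)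
      rw [← ENNReal.ofReal_tsum_of_nonneg (fun k => by positivity) hs]
      exact ENNReal.ofReal_ne_top
    filter_upwards [ae_eventually_notMem hsum] with ω hω
    filter_upwards [hω] with k hk
    have h1 : (Z ((k + 1) ^ 4) ω) ^ 2 < (ε * (((k : ℝ) + 1) ^ 4) ^ θ) ^ 2 := not_le.1 hk
    exact abs_lt_of_sq_lt_sq h1 (by positivity)
  have hBC' : ∀ᵐ ω ∂P, ∀ q : ℕ, ∀ᶠ k : ℕ in atTop,
      |Z ((k + 1) ^ 4) ω| < (1 / ((q : ℝ) + 1)) * (((k : ℝ) + 1) ^ 4) ^ θ := by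
    rw [ae_all_iff]
    intro q
    exact hBC _ (by positivity)
  filter_upwards [hBC'] with ω hω
  have hlim0 : Tendsto (fun k : ℕ => Z ((k + 1) ^ 4) ω / (((k : ℝ) + 1) ^ 4) ^ θ) atTop (𝓝 0) := by
    rw [Metric.tendsto_atTop']
    intro ε hε
    obtain ⟨q, hq⟩ := exists_nat_one_div_lt hε
    obtain ⟨N, hN⟩ := eventually_atTop.1 (hω q)
    refine ⟨N, fun k hk => ?_⟩
    have h1 := hN k hk.le
    have h2 : 0 < (((k : ℝ) + 1) ^ 4) ^ θ := by positivity
    rw [dist_zero_right, Real.norm_eq_abs, abs_div, abs_of_pos h2, div_lt_iff₀ h2]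
    exact h1.trans_le (mul_le_mul_of_nonneg_right hq.le h2.le)
  have hlimM : Tendsto (fun k : ℕ => meanTSP d ((k + 1) ^ 4) / (((k : ℝ) + 1) ^ 4) ^ θ)
      atTop (𝓝 β) := by
    have h1 : Tendsto (fun k : ℕ => (k + 1) ^ 4) atTop atTop :=
      (tendsto_pow_atTop (by norm_num : 4 ≠ 0)).comp (tendsto_add_atTop_nat 1)
    refine (hβ.comp h1).congr (fun k => ?_)
    simp only [Function.comp]
    push_cast
    rfl
  refine tendsto_of_fourth hθ0 (fun n => tsp_nonneg _) (tsp_mono_seq fun i => X i ω) ?_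
  have h3 := hlim0.add hlimM
  rw [zero_add] at h3
  refine h3.congr (fun k => ?_)
  simp only [hZ]
  rw [← add_div]
  congr 1
  ring

theorem as_sub (d : ℕ) (hd : 2 ≤ d)
    {Ω : Type u} [MeasurableSpace Ω] (P : Measure Ω) [IsProbabilityMeasure P]
    (X : ℕ → Ω → EuclideanSpace ℝ (Fin d)) (hm : ∀ i, Measurable (X i)) (hind : iIndepFun X P)
    (hlaw : ∀ i, P.map (X i) = (volume : Measure (EuclideanSpace ℝ (Fin d))).restrict
      {x | ∀ j, x j ∈ Set.Icc (0 : ℝ) 1}) :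
    ∀ᵐ ω ∂P, Tendsto (fun n : ℕ => (tsp (fun i : Fin n => X i ω) - meanTSP d n) /
      (n : ℝ) ^ (((d : ℝ) - 1) / (d : ℝ))) atTop (𝓝 0) := by
  obtain ⟨β, hβ0, hβ⟩ := exists_pois_limit d hd
  have hM := mean_limit d hd hβ0 hβ
  filter_upwards [as_limit d hd hM P X hm hind hlaw] with ω hω
  have h := hω.sub hM
  rw [sub_self] at h
  exact h.congr (fun n => (sub_div _ _ _).symm)

/-- the Beardwood-Halton-Hammersley theorem -/
theorem bhh (d : ℕ) (hd : 2 ≤ d) : ∃ β : ℝ, 0 ≤ β ∧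
    Tendsto (fun l : ℝ => poisTSP d l / l ^ (((d : ℝ) - 1) / (d : ℝ))) atTop (𝓝 β) ∧
    Tendsto (fun n : ℕ => meanTSP d n / (n : ℝ) ^ (((d : ℝ) - 1) / (d : ℝ))) atTop (𝓝 β) ∧
    ∀ {Ω : Type u} [MeasurableSpace Ω] (P : Measure Ω) [IsProbabilityMeasure P]
      (X : ℕ → Ω → EuclideanSpace ℝ (Fin d)), (∀ i, Measurable (X i)) → iIndepFun X P →
      (∀ i, P.map (X i) = (volume : Measure (EuclideanSpace ℝ (Fin d))).restrict
        {x | ∀ j, x j ∈ Set.Icc (0 : ℝ) 1}) →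
      ∀ᵐ ω ∂P, Tendsto (fun n : ℕ => tsp (fun i : Fin n => X i ω) /
        (n : ℝ) ^ (((d : ℝ) - 1) / (d : ℝ))) atTop (𝓝 β) := by
  obtain ⟨β, hβ0, hβ⟩ := exists_pois_limit d hd
  have hM := mean_limit d hd hβ0 hβ
  refine ⟨β, hβ0, hβ, hM, ?_⟩
  intro Ω _ P _ X hm hind hlaw
  exact as_limit d hd hM P X hm hind hlaw

end Pool.Agent.BHH57
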