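import Pool.Agent.BHH57.Det

/-!
MP_076557_pr, helper57: cutting the cube into cells.
-/

set_option autoImplicit false

open MeasureTheory Set
open scoped ENNReal

namespace Pool.Agent.BHH57

open Pool.Agent.TSPd97

lemma sum_map_filter_ne_nil {A : Type*} (f : List A → ℝ) (hf : f [] = 0) (L : List (List A)) :
    ((L.filter (fun l => l ≠ [])).map f).sum = (L.map f).sum := by
  induction L with
  | nil => rfl
  | cons a L ih =>
    by_cases h : a = []
    · subst h
      simp only [ne_eq, decide_not, decide_true, Bool.not_true,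
        Bool.false_eq_true, not_false_eq_true, List.filter_cons_of_neg, List.map_cons,
        List.sum_cons, hf, zero_add]
      simpa using ih
    · rw [List.filter_cons_of_pos (by simpa using h)]
      simp only [List.map_cons, List.sum_cons]
      rw [ih]

lemma coe_flatten {A : Type*} (P : List (List A)) :
    ((P.flatten : List A) : Multiset A) = (P.map (fun l : List A => (l : Multiset A))).sum := by
  induction P with
  | nil => rfl
  | cons a P ih =>
    rw [List.flatten_cons, ← Multiset.coe_add, ih, List.map_cons, List.sum_cons]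

theorem TM_le_cells : ∃ C : ℝ, 0 ≤ C ∧ ∀ d : ℕ, 2 ≤ d → ∀ (ι : Type) [Fintype ι] [DecidableEq ι]
    (q : EuclideanSpace ℝ (Fin d) → ι) (s : Multiset (EuclideanSpace ℝ (Fin d))),
    (∀ a ∈ s, a ∈ cube d) →
    TM s ≤ ∑ i : ι, TM (restr {x | q x = i} s)
      + (C * Real.sqrt d * (Fintype.card ι : ℝ) ^ (((d : ℝ) - 1) / (d : ℝ)) + Real.sqrt d) := by
  obtain ⟨C, hC⟩ := tsp_le_cover
  refine ⟨|C|, abs_nonneg _, ?_⟩
  intro d hd ι _ _ q s hs
  obtain ⟨x, hx⟩ := exists_ms s
  generalize Multiset.card s = n at x hx
  subst hx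
  classical
  set J : ι → Finset (Fin n) := fun i => Finset.univ.filter (fun j => q (x j) = i) with hJ
  choose p hp1 hp2 using fun i => exists_path x (J i)
  have hrestr : ∀ i, restr {y | q y = i} (ms x) = (J i).val.map x := by
    intro i
    rw [restr_ms]
    rfl
  set P : List (List (Fin n)) :=
    (((Finset.univ : Finset ι).toList.map p).filter (fun l => l ≠ [])) with hP
  have hPne : ∀ l ∈ P, l ≠ [] := by
    intro l hl
    have := List.of_mem_filter hl
    simpa using this
  have hflat : (P.flatten).Perm (List.finRange n) := by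
    rw [← Multiset.coe_eq_coe]
    have h1 : P.flatten = ((Finset.univ : Finset ι).toList.map p).flatten := by
      rw [hP]
      exact List.flatten_filter_ne_nil
    rw [h1, coe_flatten, List.map_map]
    have h2 : (List.map ((fun l : List (Fin n) => (l : Multiset (Fin n))) ∘ p)
        (Finset.univ : Finset ι).toList).sum = ∑ i : ι, (J i).val := by
      rw [← Finset.sum_map_toList]
      congr 1
      apply List.map_congr_left
      intro i _
      exact hp1 i
    rw [h2]
    have h3 : (List.finRange n : Multiset (Fin n)) = (Finset.univ : Finset (Fin n)).val := rfl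
    rw [h3]
    ext a
    rw [Multiset.count_sum', Multiset.count_eq_of_nodup (Finset.univ : Finset (Fin n)).nodup]
    have h4 : ∀ i : ι, Multiset.count a (J i).val = if q (x a) = i then 1 else 0 := by
      intro i
      rw [Multiset.count_eq_of_nodup (J i).nodup]
      simp [hJ]
    simp only [h4]
    simp
  have hsum : (P.map (plen x)).sum ≤ ∑ i : ι, TM (restr {y | q y = i} (ms x)) := by
    rw [hP, sum_map_filter_ne_nil _ (by simp [plen, chainSum]), List.map_map,
      Finset.sum_map_toList]
    refine Finset.sum_le_sum (fun i _ => ?_)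
    rw [hrestr]
    exact hp2 i
  have hlen : (P.length : ℝ) ≤ (Fintype.card ι : ℝ) := by
    have h1 : P.length ≤ Fintype.card ι := by
      rw [hP]
      refine (List.length_filter_le _ _).trans ?_
      simp
    exact_mod_cast h1
  have hxc : ∀ i, x i ∈ cube d := fun i => hs (x i) (mem_ms.2 ⟨i, rfl⟩)
  have hmain := hC d hd n x hxc P hPne hflat
  rw [TM_ms]
  have hθ : 0 ≤ ((d : ℝ) - 1) / (d : ℝ) := by
    have : (2 : ℝ) ≤ d := by exact_mod_cast hd
    exact div_nonneg (by linarith) (by linarith)
  have h5 : C * Real.sqrt d * (P.length : ℝ) ^ (((d : ℝ) - 1) / (d : ℝ))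
      ≤ |C| * Real.sqrt d * (Fintype.card ι : ℝ) ^ (((d : ℝ) - 1) / (d : ℝ)) := by
    have h6 : (P.length : ℝ) ^ (((d : ℝ) - 1) / (d : ℝ))
        ≤ (Fintype.card ι : ℝ) ^ (((d : ℝ) - 1) / (d : ℝ)) :=
      Real.rpow_le_rpow (by positivity) hlen hθ
    calc C * Real.sqrt d * (P.length : ℝ) ^ (((d : ℝ) - 1) / (d : ℝ))
        ≤ |C| * Real.sqrt d * (P.length : ℝ) ^ (((d : ℝ) - 1) / (d : ℝ)) := by
          apply mul_le_mul_of_nonneg_right _ (by positivity)
          exact mul_le_mul_of_nonneg_right (le_abs_self C) (Real.sqrt_nonneg _)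
      _ ≤ _ := mul_le_mul_of_nonneg_left h6 (by positivity)
  linarith

end Pool.Agent.BHH57
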