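import Pool.Agent.TSPd97.T2Patch
import Pool.Agent.TSPd97.MSOps
import Pool.Agent.TSPd97.T3Pois

/-!
MP_076557_pr, helper57: the optimal tour as a functional of a finite multiset of points.
-/

set_option autoImplicit false

open MeasureTheory Set
open scoped ENNReal

namespace Pool.Agent.BHH57

open Pool.Agent.TSPd97

variable {X Y : Type*} [PseudoMetricSpace X] [PseudoMetricSpace Y]

/-- length of the closed tour along a list -/
noncomputable def clen (l : List X) : ℝ :=
  chainSum dist l + (if h : l ≠ [] then dist (l.getLast h) (l.head h) else 0)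

lemma clen_nil : clen ([] : List X) = 0 := by simp [clen, chainSum]

lemma clen_cons (a : X) (l : List X) :
    clen (a :: l) = chainSum dist (a :: l) + dist ((a :: l).getLast (List.cons_ne_nil a l)) a := by
  simp [clen]

lemma clen_append_comm (l₁ l₂ : List X) : clen (l₁ ++ l₂) = clen (l₂ ++ l₁) := by
  by_cases h1 : l₁ = []
  · simp [h1]
  by_cases h2 : l₂ = []
  · simp [h2]
  have h3 : l₁ ++ l₂ ≠ [] := by simp [h1]
  have h4 : l₂ ++ l₁ ≠ [] := by simp [h1]
  unfold clen
  rw [dif_pos h3, dif_pos h4, Patch.chainSum_append _ _ _ h1 h2, Patch.chainSum_append _ _ _ h2 h1,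
    List.getLast_append_of_ne_nil h3 h2, List.getLast_append_of_ne_nil h4 h1,
    List.head_append_of_ne_nil h1, List.head_append_of_ne_nil h2]
  ring

lemma clen_nonneg (l : List X) : 0 ≤ clen l := by
  have h : ∀ l : List X, 0 ≤ chainSum dist l := by
    intro l
    induction l with
    | nil => simp [chainSum]
    | cons a l ih =>
      cases l with
      | nil => simp [chainSum]
      | cons b t =>
        simp only [chainSum]
        have := dist_nonneg (x := a) (y := b)
        linarith
  unfold clen
  split_ifs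
  · have := h l
    positivity
  · have := h l
    linarith

lemma clen_tail_le (a : X) (l : List X) : clen l ≤ clen (a :: l) := by
  cases l with
  | nil =>
    rw [clen_nil]
    exact clen_nonneg _
  | cons b t =>
    rw [clen_cons, clen_cons]
    have h : (a :: b :: t).getLast (List.cons_ne_nil a _) =
      (b :: t).getLast (List.cons_ne_nil b t) := by simp
    rw [h]
    simp only [chainSum]
    have := dist_triangle ((b :: t).getLast (List.cons_ne_nil b t)) a b
    linarith

lemma clen_replace (a b : X) (l : List X) : clen (b :: l) ≤ clen (a :: l) + 2 * dist a b := by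
  cases l with
  | nil =>
    rw [clen_cons, clen_cons]
    simp [chainSum]
  | cons c t =>
    rw [clen_cons, clen_cons]
    have h : ∀ z : X, (z :: c :: t).getLast (List.cons_ne_nil z _) =
      (c :: t).getLast (List.cons_ne_nil c t) := by intro z; simp
    rw [h, h]
    simp only [chainSum]
    have h1 := dist_triangle ((c :: t).getLast (List.cons_ne_nil c t)) a b
    have h2 := dist_triangle b a c
    rw [dist_comm b a] at h2
    linarith

lemma sum_tour_eq_clen {n : ℕ} (y : Fin n → X) :
    ∑ i : Fin n, dist (y i) (y (finRotate n i)) = clen (List.ofFn y) := by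
  cases n with
  | zero => simp [clen, chainSum]
  | succ m =>
    have hne : List.ofFn y ≠ [] := by simp
    unfold clen
    rw [dif_pos hne, Patch.chainSum_ofFn, Fin.sum_univ_castSucc]
    congr 1
    · apply Finset.sum_congr rfl
      intro i _
      rw [finRotate_apply, Fin.coeSucc_eq_succ]
    · rw [finRotate_last, List.getLast_ofFn, List.head_ofFn]
      rfl

lemma tsp_bddBelow {n : ℕ} (x : Fin n → X) :
    BddBelow (Set.range fun σ : Equiv.Perm (Fin n) =>
      ∑ i : Fin n, dist (x (σ i)) (x (σ (finRotate n i)))) :=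
  (Set.finite_range _).bddBelow

lemma exists_opt {n : ℕ} (x : Fin n → X) :
    ∃ σ : Equiv.Perm (Fin n), clen (List.ofFn (x ∘ σ)) = tsp x := by
  obtain ⟨σ, hσ⟩ := exists_eq_ciInf_of_finite (f := fun σ : Equiv.Perm (Fin n) =>
    ∑ i : Fin n, dist (x (σ i)) (x (σ (finRotate n i))))
  refine ⟨σ, ?_⟩
  rw [← sum_tour_eq_clen]
  exact hσ

lemma tsp_le_clen {n : ℕ} (x : Fin n → X) (l : List X) (hl : (l : Multiset X) = ms x) :
    tsp x ≤ clen l := by
  have hlen : l.length = n := by
    have := congrArg Multiset.card hl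
    simpa using this
  subst hlen
  obtain ⟨σ, hσ⟩ := exists_perm_of_ms_eq (fun i => l.get i) x (by
    rw [ms_eq_ofFn, ← hl]
    exact congrArg _ (List.ofFn_get l))
  have h2 : l = List.ofFn (x ∘ σ) := by
    rw [← hσ]
    exact (List.ofFn_get l).symm
  have h3 : clen l = clen (List.ofFn (x ∘ σ)) := congrArg clen h2
  rw [h3, ← sum_tour_eq_clen]
  exact ciInf_le (tsp_bddBelow x) σ

/-- optimal tour length of a finite multiset of points -/
noncomputable def TM (s : Multiset X) : ℝ := tsp (Classical.choose (exists_ms s))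

lemma TM_le_clen (l : List X) : TM (l : Multiset X) ≤ clen l :=
  tsp_le_clen _ l (Classical.choose_spec (exists_ms (l : Multiset X))).symm

lemma exists_list (s : Multiset X) : ∃ l : List X, (l : Multiset X) = s ∧ clen l = TM s := by
  obtain ⟨σ, hσ⟩ := exists_opt (Classical.choose (exists_ms s))
  refine ⟨_, ?_, hσ⟩
  rw [← ms_eq_ofFn, ms_comp_perm, Classical.choose_spec (exists_ms s)]

lemma TM_ms {n : ℕ} (x : Fin n → X) : TM (ms x) = tsp x := by
  apply le_antisymm
  · obtain ⟨σ, hσ⟩ := exists_opt x
    rw [← hσ]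
    have := TM_le_clen (List.ofFn (x ∘ σ))
    rwa [← ms_eq_ofFn, ms_comp_perm] at this
  · obtain ⟨l, hl, hl2⟩ := exists_list (ms x)
    rw [← hl2]
    exact tsp_le_clen x l hl

lemma TM_nonneg (s : Multiset X) : 0 ≤ TM s := tsp_nonneg _

lemma TM_zero : TM (0 : Multiset X) = 0 := by
  apply le_antisymm _ (TM_nonneg _)
  have := TM_le_clen ([] : List X)
  rw [clen_nil] at this
  exact this

lemma exists_list_cons (a : X) (s : Multiset X) :
    ∃ l : List X, (l : Multiset X) = s ∧ clen (a :: l) = TM (a ::ₘ s) := by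
  obtain ⟨l, hl, hl2⟩ := exists_list (a ::ₘ s)
  have ha : a ∈ l := by
    rw [← Multiset.mem_coe, hl]
    simp
  obtain ⟨l₁, l₂, rfl⟩ := List.append_of_mem ha
  refine ⟨l₂ ++ l₁, ?_, ?_⟩
  · have h : (((a :: (l₂ ++ l₁)) : List X) : Multiset X) = a ::ₘ s := by
      rw [← hl]
      refine Multiset.coe_eq_coe.2 ?_
      exact (List.perm_append_comm (l₁ := a :: l₂) (l₂ := l₁))
    rw [← Multiset.cons_coe] at h
    exact (Multiset.cons_inj_right a).1 h
  · rw [← hl2, clen_append_comm l₁ (a :: l₂)]
    rfl

lemma TM_le_cons (a : X) (s : Multiset X) : TM s ≤ TM (a ::ₘ s) := by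
  obtain ⟨l, hl, hl2⟩ := exists_list_cons a s
  rw [← hl2, ← hl]
  exact (TM_le_clen l).trans (clen_tail_le a l)

lemma TM_le_add (s t : Multiset X) : TM s ≤ TM (s + t) := by
  induction t using Multiset.induction_on with
  | empty => simp
  | cons a t ih =>
    rw [Multiset.add_cons]
    exact ih.trans (TM_le_cons a _)

lemma TM_replace (a b : X) (s : Multiset X) :
    TM (b ::ₘ s) ≤ TM (a ::ₘ s) + 2 * dist a b := by
  obtain ⟨l, hl, hl2⟩ := exists_list_cons a s
  have h := TM_le_clen (b :: l)
  rw [← Multiset.cons_coe, hl] at h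
  rw [← hl2]
  exact h.trans (clen_replace a b l)

lemma tsp_map {n : ℕ} (f : X → Y) (c : ℝ) (hc : 0 ≤ c)
    (hf : ∀ a b, dist (f a) (f b) = c * dist a b) (x : Fin n → X) :
    tsp (fun i => f (x i)) = c * tsp x := by
  unfold tsp
  rw [Real.mul_iInf_of_nonneg hc]
  congr 1
  funext σ
  rw [Finset.mul_sum]
  exact Finset.sum_congr rfl fun i _ => hf _ _

lemma TM_map (f : X → Y) (c : ℝ) (hc : 0 ≤ c)
    (hf : ∀ a b, dist (f a) (f b) = c * dist a b) (s : Multiset X) :
    TM (s.map f) = c * TM s := by
  obtain ⟨x, hx⟩ := exists_ms s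
  rw [← hx, map_ms, TM_ms, TM_ms]
  exact tsp_map f c hc hf x

/-- the path along an optimal tour of a subset of the indices -/
lemma exists_path {n : ℕ} (x : Fin n → X) (J : Finset (Fin n)) :
    ∃ p : List (Fin n), (p : Multiset (Fin n)) = J.val ∧ plen x p ≤ TM (J.val.map x) := by
  rw [finset_val_map_eq_ms, TM_ms]
  obtain ⟨σ, hσ⟩ := exists_opt (fun i : Fin J.card => x (J.orderEmbOfFin rfl i))
  refine ⟨List.ofFn (fun i => J.orderEmbOfFin rfl (σ i)), ?_, ?_⟩
  · have h1 : ((List.ofFn (fun i => J.orderEmbOfFin rfl (σ i)) : List (Fin n)) : Multiset (Fin n))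
        = ms ((fun i : Fin J.card => J.orderEmbOfFin rfl i) ∘ σ) := by
      rw [ms_eq_ofFn]
      rfl
    rw [h1, ms_comp_perm]
    have h2 := finset_val_map_eq_ms J (fun i : Fin n => i)
    rw [← h2]
    simp
  · rw [← hσ]
    have h3 : ∀ (l : List (Fin n)), plen x l = chainSum dist (l.map x) := by
      intro l
      unfold plen
      induction l with
      | nil => simp [chainSum]
      | cons a l ih =>
        cases l with
        | nil => simp [chainSum]
        | cons b t =>
          simp only [chainSum, List.map_cons] at ih ⊢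
          rw [ih]
    rw [h3, List.map_ofFn]
    unfold clen
    have h4 : (0 : ℝ) ≤ if h : List.ofFn ((fun i : Fin J.card => x (J.orderEmbOfFin rfl i)) ∘ σ) ≠ []
        then dist ((List.ofFn ((fun i : Fin J.card => x (J.orderEmbOfFin rfl i)) ∘ σ)).getLast h)
          ((List.ofFn ((fun i : Fin J.card => x (J.orderEmbOfFin rfl i)) ∘ σ)).head h) else 0 := by
      split_ifs
      · exact dist_nonneg
      · exact le_rfl
    have h5 : (x ∘ fun i => (J.orderEmbOfFin rfl) (σ i))
        = ((fun i : Fin J.card => x (J.orderEmbOfFin rfl i)) ∘ σ) := rfl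
    rw [h5]
    linarith

end Pool.Agent.BHH57
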