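import Pool.Agent.BHH57.Scale

/-!
MP_076557_pr, helper57: existence of the limit for the Poissonised tour length.
-/

set_option autoImplicit false

open MeasureTheory Set Filter Topology
open scoped ENNReal

namespace Pool.Agent.BHH57

open Pool.Agent.TSPd97 Pool.Agent.TSPd97.PO

lemma rpow_theta {d : ℕ} (hd : 1 ≤ d) {l m : ℝ} (hl : 0 ≤ l) (hm : 0 ≤ m) :
    (l * m ^ d) ^ (((d : ℝ) - 1) / (d : ℝ)) = l ^ (((d : ℝ) - 1) / (d : ℝ)) * m ^ (d - 1) := by
  have hd0 : (d : ℝ) ≠ 0 := by positivity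
  rw [Real.mul_rpow hl (by positivity), ← Real.rpow_natCast m d, ← Real.rpow_mul hm,
    ← Real.rpow_natCast m (d - 1)]
  congr 2
  rw [Nat.cast_sub hd]
  field_simp
  simp

/-- a monotone function with the scaling inequality has a limit -/
theorem exists_limit {d : ℕ} (hd : 2 ≤ d) {φ : ℝ → ℝ} {C : ℝ} (hC : 0 ≤ C)
    (h0 : ∀ l, 0 ≤ l → 0 ≤ φ l)
    (hmono : ∀ l l', 0 ≤ l → l ≤ l' → φ l ≤ φ l')
    (hsub : ∀ l, 0 ≤ l → ∀ m : ℕ, 1 ≤ m → φ (l * (m : ℝ) ^ d) ≤ (m : ℝ) ^ (d - 1) * (φ l + C)) :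
    ∃ β : ℝ, 0 ≤ β ∧
      Tendsto (fun l : ℝ => φ l / l ^ (((d : ℝ) - 1) / (d : ℝ))) atTop (𝓝 β) := by
  have hd' : (2 : ℝ) ≤ d := by exact_mod_cast hd
  set θ : ℝ := ((d : ℝ) - 1) / (d : ℝ) with hθ
  have hθ0 : 0 < θ := div_pos (by linarith) (by linarith)
  set h : ℝ → ℝ := fun l => (φ l + C) / l ^ θ with hh
  set S : Set ℝ := h '' Set.Ioi 0 with hS
  have hhn : ∀ l, 0 < l → 0 ≤ h l := fun l hl => by
    have := h0 l hl.le
    have h2 : 0 < l ^ θ := Real.rpow_pos_of_pos hl θ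
    simp only [hh]
    positivity
  have hSb : BddBelow S := ⟨0, by
    rintro _ ⟨l, hl, rfl⟩
    exact hhn l hl⟩
  have hSn : S.Nonempty := ⟨h 1, 1, by simp, rfl⟩
  set β : ℝ := sInf S with hβ
  have hβ0 : 0 ≤ β := le_csInf hSn (by
    rintro _ ⟨l, hl, rfl⟩
    exact hhn l hl)
  refine ⟨β, hβ0, ?_⟩
  rw [tendsto_order]
  constructor
  · intro a ha
    have h1 : Tendsto (fun l : ℝ => C / l ^ θ) atTop (𝓝 0) :=
      Tendsto.div_atTop tendsto_const_nhds (tendsto_rpow_atTop hθ0)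
    filter_upwards [h1.eventually (gt_mem_nhds (sub_pos.2 ha)), eventually_gt_atTop (0 : ℝ)]
      with l hl1 hl
    have h2 : β ≤ h l := csInf_le hSb ⟨l, hl, rfl⟩
    have h3 : h l = φ l / l ^ θ + C / l ^ θ := by
      simp only [hh]
      rw [add_div]
    linarith
  · intro a ha
    -- choose a good scale
    obtain ⟨_, ⟨l0, hl0, rfl⟩, hlt⟩ := exists_lt_of_csInf_lt hSn ha
    have hl0' : 0 < l0 := hl0
    -- the ratio
    have hr : Tendsto (fun m : ℕ => (1 + 1 / ((m : ℝ))) ^ (d - 1) * h l0) atTop (𝓝 (h l0)) := by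
      have h1 : Tendsto (fun m : ℕ => (1 : ℝ) + 1 / (m : ℝ)) atTop (𝓝 (1 + 0)) :=
        tendsto_const_nhds.add tendsto_one_div_atTop_nhds_zero_nat
      rw [add_zero] at h1
      have h2 := (h1.pow (d - 1)).mul_const (h l0)
      simpa using h2
    have hev := (hr.eventually (gt_mem_nhds hlt)).and (eventually_ge_atTop 1)
    obtain ⟨m0, hm0⟩ := eventually_atTop.1 hev
    filter_upwards [eventually_ge_atTop (l0 * ((m0 : ℝ) + 1) ^ d), eventually_gt_atTop (0 : ℝ)]
      with l hl hlp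
    -- the integer scale
    have hex : ∃ k : ℕ, l < l0 * ((k : ℝ) + 1) ^ d := by
      have h1 : Tendsto (fun k : ℕ => l0 * ((k : ℝ) + 1) ^ d) atTop atTop := by
        refine Tendsto.const_mul_atTop hl0' ?_
        refine (tendsto_pow_atTop (by omega : d ≠ 0)).comp ?_
        exact tendsto_atTop_add_const_right _ _ tendsto_natCast_atTop_atTop
      obtain ⟨k, hk⟩ := (h1.eventually_gt_atTop l).exists
      exact ⟨k, hk⟩
    classical
    set k := Nat.find hex with hk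
    have hk1 : l < l0 * ((k : ℝ) + 1) ^ d := Nat.find_spec hex
    have hkm : m0 + 1 ≤ k := by
      by_contra hcon
      have h1 : (k : ℝ) + 1 ≤ (m0 : ℝ) + 1 := by
        have : k ≤ m0 := by omega
        have : (k : ℝ) ≤ m0 := by exact_mod_cast this
        linarith
      have h2 : l0 * ((k : ℝ) + 1) ^ d ≤ l0 * ((m0 : ℝ) + 1) ^ d :=
        mul_le_mul_of_nonneg_left (pow_le_pow_left₀ (by positivity) h1 d) hl0'.le
      linarith
    have hk2 : l0 * (k : ℝ) ^ d ≤ l := by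
      have h1 : ¬ l < l0 * (((k - 1 : ℕ) : ℝ) + 1) ^ d := Nat.find_min hex (by omega)
      have h2 : ((k - 1 : ℕ) : ℝ) + 1 = k := by
        rw [Nat.cast_sub (by omega)]
        simp
      rw [h2] at h1
      exact not_lt.1 h1
    have hkp : (0 : ℝ) < k := by
      have : 0 < k := by omega
      exact_mod_cast this
    have hm1 := (hm0 k (by omega)).1
    have h5 : φ l ≤ ((k : ℝ) + 1) ^ (d - 1) * (φ l0 + C) := by
      have h6 := hsub l0 hl0'.le (k + 1) (by omega)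
      push_cast at h6
      exact (hmono l _ hlp.le hk1.le).trans h6
    have h7 : l0 ^ θ * (k : ℝ) ^ (d - 1) ≤ l ^ θ := by
      rw [← rpow_theta (by omega) hl0'.le hkp.le]
      exact Real.rpow_le_rpow (by positivity) hk2 hθ0.le
    have h8 : 0 < l0 ^ θ := Real.rpow_pos_of_pos hl0' θ
    have h9 : 0 < (k : ℝ) ^ (d - 1) := by positivity
    have h10 : 0 ≤ φ l0 + C := by
      have := h0 l0 hl0'.le
      linarith
    calc φ l / l ^ θ ≤ ((k : ℝ) + 1) ^ (d - 1) * (φ l0 + C) / (l0 ^ θ * (k : ℝ) ^ (d - 1)) := by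
          apply div_le_div₀ (by positivity) h5 (by positivity) h7
      _ = (1 + 1 / (k : ℝ)) ^ (d - 1) * h l0 := by
          have h11 : (1 + 1 / (k : ℝ)) = ((k : ℝ) + 1) / k := by
            field_simp
          rw [h11, div_pow]
          simp only [hh]
          field_simp
      _ < a := hm1

theorem exists_pois_limit (d : ℕ) (hd : 2 ≤ d) : ∃ β : ℝ, 0 ≤ β ∧
    Tendsto (fun l : ℝ => poisTSP d l / l ^ (((d : ℝ) - 1) / (d : ℝ))) atTop (𝓝 β) := by
  obtain ⟨C, hC0, hC⟩ := pois_sub d hd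
  exact exists_limit hd hC0 (fun l hl => poisTSP_nonneg d l hl)
    (fun l l' hl h => pois_mono d hd hl h) hC

end Pool.Agent.BHH57
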