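import Pool.Agent.BHH57.Cells
import Pool.Agent.TSPd97.PoisInt

/-!
MP_076557_pr, helper57: subadditivity of the Poissonised tour length.
-/

set_option autoImplicit false

open MeasureTheory Set
open scoped ENNReal

namespace Pool.Agent.BHH57

open Pool.Agent.TSPd97 Pool.Agent.TSPd97.PO

/-- half open unit cube -/
def cube0 (d : ℕ) : Set (Vd d) := {x | ∀ j, x j ∈ Set.Ico (0 : ℝ) 1}

lemma measurableSet_cube0 (d : ℕ) : MeasurableSet (cube0 d) := by
  have : cube0 d = ⋂ j, {x : Vd d | x j ∈ Set.Ico (0 : ℝ) 1} := by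
    ext x
    simp [cube0]
  rw [this]
  refine MeasurableSet.iInter fun j => ?_
  have hj : Measurable fun x : Vd d => x j := by fun_prop
  exact hj measurableSet_Ico

lemma cube0_subset (d : ℕ) : cube0 d ⊆ cube d := fun _ hx j => ⟨(hx j).1, (hx j).2.le⟩

lemma uq_eq (d : ℕ) : uq d = (volume : Measure (Vd d)).restrict (cube0 d) := by
  unfold uq
  refine Measure.restrict_congr_set ?_
  have h1 : volume (cube0 d) = 1 := by
    have := GeoAux.volume_box (d := d) (fun _ => Set.Ico (0 : ℝ) 1) (fun _ => measurableSet_Ico)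
    have h2 : cube0 d = {x : Vd d | ∀ i, x i ∈ Set.Ico (0 : ℝ) 1} := rfl
    rw [h2, this]
    simp
  refine (ae_eq_of_subset_of_measure_ge (cube0_subset d) ?_ (measurableSet_cube0 d).nullMeasurableSet
    ?_).symm
  · rw [h1, GeoAux.volume_cube]
  · rw [GeoAux.volume_cube]
    simp

/-- the cell of a point -/
noncomputable def cell (d m : ℕ) (x : Vd d) (j : Fin d) : ℕ := min ⌊(m : ℝ) * x j⌋₊ (m - 1)

lemma cell_lt {d m : ℕ} (hm : 1 ≤ m) (x : Vd d) (j : Fin d) : cell d m x j < m := by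
  unfold cell
  omega

/-- the cell as an index -/
noncomputable def qc (d m : ℕ) (hm : 1 ≤ m) (x : Vd d) : Fin d → Fin m :=
  fun j => ⟨cell d m x j, cell_lt hm x j⟩

/-- corner of a cell -/
noncomputable def corner {d m : ℕ} (i : Fin d → Fin m) : Vd d :=
  WithLp.toLp 2 (fun j => ((i j : ℕ) : ℝ))

/-- the map of the unit cube onto a cell -/
noncomputable def Am {d m : ℕ} (i : Fin d → Fin m) (x : Vd d) : Vd d :=
  (1 / (m : ℝ)) • (x + corner i)

lemma measurable_qc (d m : ℕ) (hm : 1 ≤ m) : Measurable (qc d m hm) := by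
  refine measurable_pi_lambda _ (fun j => ?_)
  have h1 : Measurable fun x : Vd d => cell d m x j := by
    unfold cell
    have hj : Measurable fun x : Vd d => x j := by fun_prop
    exact (Nat.measurable_floor.comp (hj.const_mul _)).min measurable_const
  refine measurable_to_countable' (fun k => ?_)
  have h2 : (fun x : Vd d => qc d m hm x j) ⁻¹' {k} = (fun x : Vd d => cell d m x j) ⁻¹' {(k : ℕ)} := by
    ext x
    simp only [mem_preimage, mem_singleton_iff, qc, Fin.ext_iff]
  rw [h2]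
  exact h1 (measurableSet_singleton _)

lemma measurable_Am {d m : ℕ} (i : Fin d → Fin m) : Measurable (Am i) := by
  unfold Am
  fun_prop

lemma Am_apply {d m : ℕ} (i : Fin d → Fin m) (x : Vd d) (j : Fin d) :
    Am i x j = (1 / (m : ℝ)) * (x j + ((i j : ℕ) : ℝ)) := by
  simp [Am, corner]
  ring

lemma mem_cell_iff {d m : ℕ} (hm : 1 ≤ m) (i : Fin d → Fin m) (x : Vd d) :
    (Am i x ∈ cube0 d ∧ qc d m hm (Am i x) = i) ↔ x ∈ cube0 d := by
  have hm0 : (0 : ℝ) < m := by exact_mod_cast hm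
  have hmul : ∀ j, (m : ℝ) * Am i x j = x j + ((i j : ℕ) : ℝ) := by
    intro j
    rw [Am_apply]
    field_simp
  constructor
  · rintro ⟨h1, h2⟩ j
    have h3 : cell d m (Am i x) j = (i j : ℕ) := by
      have := congrFun h2 j
      exact congrArg Fin.val this
    have h4 := h1 j
    unfold cell at h3
    rw [hmul] at h3
    have h6 : x j + ((i j : ℕ) : ℝ) < m := by
      rw [← hmul]
      calc (m : ℝ) * Am i x j < m * 1 := by
            apply mul_lt_mul_of_pos_left h4.2 hm0
        _ = m := mul_one _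
    have h7 : 0 ≤ x j + ((i j : ℕ) : ℝ) := by
      rw [← hmul]
      exact mul_nonneg hm0.le h4.1
    have h8 : ⌊x j + ((i j : ℕ) : ℝ)⌋₊ < m := by
      rw [Nat.floor_lt h7]
      exact h6
    have h9 : ⌊x j + ((i j : ℕ) : ℝ)⌋₊ = (i j : ℕ) := by omega
    rw [Nat.floor_eq_iff h7] at h9
    exact ⟨by linarith [h9.1], by linarith [h9.2]⟩
  · intro hx
    have hb : ∀ j, Am i x j ∈ Set.Ico (0 : ℝ) 1 := by
      intro j
      have h1 := hx j
      have h2 : ((i j : ℕ) : ℝ) + 1 ≤ m := by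
        exact_mod_cast (i j).2
      have h3 : (0 : ℝ) ≤ ((i j : ℕ) : ℝ) := by positivity
      rw [Am_apply]
      constructor
      · have := h1.1
        positivity
      · rw [one_div, inv_mul_lt_iff₀ hm0]
        linarith [h1.2]
    refine ⟨hb, ?_⟩
    funext j
    apply Fin.ext
    change min ⌊(m : ℝ) * Am i x j⌋₊ (m - 1) = (i j : ℕ)
    rw [hmul]
    have h1 := hx j
    have h2 : ⌊x j + ((i j : ℕ) : ℝ)⌋₊ = (i j : ℕ) := by
      rw [Nat.floor_eq_iff (by have := h1.1; positivity)]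
      exact ⟨by linarith [h1.1], by linarith [h1.2]⟩
    rw [h2]
    have := (i j).2
    omega

lemma volume_preimage_Am {d m : ℕ} (hm : 1 ≤ m) (i : Fin d → Fin m) (S : Set (Vd d)) :
    volume (Am i ⁻¹' S) = ENNReal.ofReal ((m : ℝ) ^ d) * volume S := by
  have hm0 : (0 : ℝ) < m := by exact_mod_cast hm
  have h1 : Am i ⁻¹' S = (fun x : Vd d => x + corner i) ⁻¹'
      ((fun x : Vd d => (1 / (m : ℝ)) • x) ⁻¹' S) := rfl
  rw [h1, measure_preimage_add_right, Measure.addHaar_preimage_smul volume (by positivity)]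
  congr 2
  rw [finrank_euclideanSpace_fin]
  rw [abs_of_nonneg (by positivity)]
  simp

lemma restrict_cell (d m : ℕ) (hm : 1 ≤ m) (l : ℝ) (hl : 0 ≤ l) (i : Fin d → Fin m) :
    (ENNReal.ofReal (l * (m : ℝ) ^ d) • uq d).restrict {x | qc d m hm x = i}
      = (ENNReal.ofReal l • uq d).map (Am i) := by
  have hQ : MeasurableSet {x | qc d m hm x = i} :=
    measurable_qc d m hm (measurableSet_singleton i)
  ext S hS
  rw [Measure.restrict_apply hS, Measure.map_apply (measurable_Am i) hS, Measure.smul_apply,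
    Measure.smul_apply, uq_eq, Measure.restrict_apply (hS.inter hQ),
    Measure.restrict_apply (measurable_Am i hS)]
  have h1 : Am i ⁻¹' S ∩ cube0 d = Am i ⁻¹' (S ∩ {x | qc d m hm x = i} ∩ cube0 d) := by
    ext x
    have := mem_cell_iff hm i x
    simp only [mem_inter_iff, mem_preimage, mem_ofPred_eq] at this ⊢
    tauto
  rw [h1, volume_preimage_Am hm, smul_eq_mul, smul_eq_mul, ENNReal.ofReal_mul hl]
  ring

lemma dist_Am {d m : ℕ} (i : Fin d → Fin m) (x y : Vd d) :
    dist (Am i x) (Am i y) = 1 / (m : ℝ) * dist x y := by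
  unfold Am
  rw [dist_smul₀, dist_add_right, Real.norm_of_nonneg (by positivity)]

/-- the tour length with values in `[0, ∞]` -/
noncomputable def TE {d : ℕ} (s : Multiset (Vd d)) : ℝ≥0∞ := ENNReal.ofReal (TM s)

lemma measurable_TE (d : ℕ) : Measurable (TE : Multiset (Vd d) → ℝ≥0∞) := by
  apply measurable_of_ms
  intro n
  unfold TE
  simp only [TM_ms]
  exact (measurable_tsp d n).ennreal_ofReal

lemma lintegral_TE (d : ℕ) (hd : 2 ≤ d) (l : ℝ) (hl : 0 ≤ l) :
    ∫⁻ s, TE s ∂(PP (ENNReal.ofReal l • uq d)) = ENNReal.ofReal (poisTSP d l) := by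
  rw [← lam_eq, lintegral_PP_lam d l hl (measurable_TE d), ofReal_poisTSP d hd l hl]
  unfold TE
  simp only [TM_ms]

instance smul_fin (d : ℕ) (l : ℝ) : IsFiniteMeasure (ENNReal.ofReal l • uq d) := by
  constructor
  rw [Measure.smul_apply, smul_eq_mul, measure_univ, mul_one]
  exact ENNReal.ofReal_lt_top

lemma lintegral_TE_cell (d m : ℕ) (hd : 2 ≤ d) (hm : 1 ≤ m) (l : ℝ) (hl : 0 ≤ l)
    (i : Fin d → Fin m) :
    ∫⁻ s, TE (restr {x | qc d m hm x = i} s) ∂(PP (ENNReal.ofReal (l * (m : ℝ) ^ d) • uq d))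
      = ENNReal.ofReal (1 / (m : ℝ)) * ENNReal.ofReal (poisTSP d l) := by
  have hQ : MeasurableSet {x | qc d m hm x = i} :=
    measurable_qc d m hm (measurableSet_singleton i)
  have hr : Measurable (restr {x : Vd d | qc d m hm x = i}) :=
    measurable_restr_const hQ measurable_id
  rw [← lintegral_map (measurable_TE d) hr,
    PP_restr _ hQ, restrict_cell d m hm l hl i, ← PP_map _ (measurable_Am i),
    lintegral_map (measurable_TE d) (measurable_map_multiset (measurable_Am i))]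
  have h1 : ∀ s : Multiset (Vd d), TE (s.map (Am i)) = ENNReal.ofReal (1 / (m : ℝ)) * TE s := by
    intro s
    unfold TE
    rw [TM_map (Am i) (1 / (m : ℝ)) (by positivity) (dist_Am i),
      ENNReal.ofReal_mul (by positivity)]
  simp_rw [h1]
  rw [lintegral_const_mul _ (measurable_TE d), lintegral_TE d hd l hl]

/-- subadditivity -/
theorem pois_sub (d : ℕ) (hd : 2 ≤ d) : ∃ C : ℝ, 0 ≤ C ∧ ∀ l : ℝ, 0 ≤ l → ∀ m : ℕ, 1 ≤ m →
    poisTSP d (l * (m : ℝ) ^ d) ≤ (m : ℝ) ^ (d - 1) * (poisTSP d l + C) := by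
  obtain ⟨C, hC0, hC⟩ := TM_le_cells
  refine ⟨C * Real.sqrt d + Real.sqrt d, by positivity, ?_⟩
  intro l hl m hm
  have hm0 : (0 : ℝ) < m := by exact_mod_cast hm
  have hm1 : (1 : ℝ) ≤ m := by exact_mod_cast hm
  have hl' : 0 ≤ l * (m : ℝ) ^ d := by positivity
  set ν : Measure (Vd d) := ENNReal.ofReal (l * (m : ℝ) ^ d) • uq d with hν
  set K : ℝ := C * Real.sqrt d * (Fintype.card (Fin d → Fin m) : ℝ) ^ (((d : ℝ) - 1) / (d : ℝ))
    + Real.sqrt d with hK
  have hK0 : 0 ≤ K := by positivity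
  have hcard : (Fintype.card (Fin d → Fin m) : ℝ) ^ (((d : ℝ) - 1) / (d : ℝ))
      = (m : ℝ) ^ (d - 1) := by
    have hd0 : (d : ℝ) ≠ 0 := by
      have : (2 : ℝ) ≤ d := by exact_mod_cast hd
      positivity
    simp only [Fintype.card_fun, Fintype.card_fin]
    push_cast
    rw [← Real.rpow_natCast (m : ℝ) d, ← Real.rpow_mul hm0.le, ← Real.rpow_natCast (m : ℝ) (d - 1)]
    congr 1
    rw [Nat.cast_sub (by omega)]
    field_simp
    simp
  have hK1 : K ≤ (m : ℝ) ^ (d - 1) * (C * Real.sqrt d + Real.sqrt d) := by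
    rw [hK, hcard]
    have h1 : (1 : ℝ) ≤ (m : ℝ) ^ (d - 1) := one_le_pow₀ hm1
    have h2 : Real.sqrt d ≤ (m : ℝ) ^ (d - 1) * Real.sqrt d :=
      le_mul_of_one_le_left (Real.sqrt_nonneg _) h1
    nlinarith
  have hae : ∀ᵐ s ∂(PP ν), ∀ a ∈ s, a ∈ cube d := by
    refine ae_PP_forall ν (measurableSet_cube d) ?_
    rw [hν, Measure.smul_apply]
    have : uq d (cube d)ᶜ = 0 := by
      unfold uq
      rw [Measure.restrict_apply (measurableSet_cube d).compl]
      simp
    rw [this]
    simp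
  have h1 : ENNReal.ofReal (poisTSP d (l * (m : ℝ) ^ d))
      ≤ ∫⁻ s, (∑ i : Fin d → Fin m, TE (restr {x | qc d m hm x = i} s)) + ENNReal.ofReal K
        ∂(PP ν) := by
    rw [← lintegral_TE d hd _ hl']
    refine lintegral_mono_ae ?_
    filter_upwards [hae] with s hs
    have h2 := hC d hd (Fin d → Fin m) (qc d m hm) s hs
    unfold TE
    rw [← ENNReal.ofReal_sum_of_nonneg (fun i _ => TM_nonneg _),
      ← ENNReal.ofReal_add (Finset.sum_nonneg fun i _ => TM_nonneg _) hK0]
    exact ENNReal.ofReal_le_ofReal h2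
  have hmeas : ∀ i : Fin d → Fin m,
      Measurable fun s : Multiset (Vd d) => TE (restr {x | qc d m hm x = i} s) := fun i =>
    (measurable_TE d).comp (measurable_restr_const
      (measurable_qc d m hm (measurableSet_singleton i)) measurable_id)
  rw [lintegral_add_right _ measurable_const, lintegral_finsetSum _ (fun i _ => hmeas i),
    lintegral_const, measure_univ, mul_one,
    Finset.sum_congr rfl (fun i _ => lintegral_TE_cell d m hd hm l hl i)] at h1
  rw [Finset.sum_const, Finset.card_univ, nsmul_eq_mul] at h1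
  have hp0 := poisTSP_nonneg d l hl
  rw [← ENNReal.ofReal_natCast, ← ENNReal.ofReal_mul (by positivity),
    ← ENNReal.ofReal_mul (by positivity), ← ENNReal.ofReal_add (by positivity) hK0,
    ENNReal.ofReal_le_ofReal_iff (by positivity)] at h1
  refine h1.trans ?_
  have h3 : ((Fintype.card (Fin d → Fin m) : ℕ) : ℝ) * (1 / (m : ℝ) * poisTSP d l)
      = (m : ℝ) ^ (d - 1) * poisTSP d l := by
    simp only [Fintype.card_fun, Fintype.card_fin]
    push_cast
    have h4 : (m : ℝ) ^ d = (m : ℝ) ^ (d - 1) * m := by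
      rw [← pow_succ]
      congr 1
      omega
    rw [h4]
    field_simp
  rw [h3]
  linarith

/-- monotonicity -/
theorem pois_mono (d : ℕ) (hd : 2 ≤ d) {l l' : ℝ} (hl : 0 ≤ l) (h : l ≤ l') :
    poisTSP d l ≤ poisTSP d l' := by
  have hl' : 0 ≤ l' := hl.trans h
  rw [← ENNReal.ofReal_le_ofReal_iff (poisTSP_nonneg d l' hl'), ← lintegral_TE d hd l hl,
    ← lintegral_TE d hd l' hl']
  have h1 : ENNReal.ofReal l' • uq d = ENNReal.ofReal l • uq d + ENNReal.ofReal (l' - l) • uq d := by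
    rw [← add_smul, ← ENNReal.ofReal_add hl (by linarith)]
    congr 2
    ring
  rw [h1, lintegral_PP_add _ _ (measurable_TE d)]
  refine lintegral_mono (fun s => ?_)
  calc TE s = ∫⁻ _t, TE s ∂(PP (ENNReal.ofReal (l' - l) • uq d)) := by
        rw [lintegral_const, measure_univ, mul_one]
    _ ≤ _ := lintegral_mono (fun t => ENNReal.ofReal_le_ofReal (TM_le_add s t))

end Pool.Agent.BHH57
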