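import Pool.Agent.BHH57.Limit

/-!
MP_076557_pr, helper57: from the Poissonised mean to the mean.
-/

set_option autoImplicit false

open MeasureTheory Set Filter Topology
open scoped ENNReal

namespace Pool.Agent.BHH57

open Pool.Agent.TSPd97 Pool.Agent.TSPd97.PO

lemma hasSum_pw_var (l : ℝ) : HasSum (fun n : ℕ => pw l n * ((n : ℝ) - l) ^ 2) l := by
  have h := ((hasSum_pw_mul_sq l).add ((hasSum_pw_mul l).mul_left (-2 * l))).add
    ((hasSum_pw l).mul_left (l ^ 2))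
  refine hasSum_congr' h (fun n => ?_) ?_
  · ring
  · ring

theorem poisson_tauber {a : ℕ → ℝ} {β θ C : ℝ} (h0 : 0 < θ) (h1 : θ ≤ 1) (hβ : 0 ≤ β)
    (hC : 0 ≤ C) (ha0 : ∀ n, 0 ≤ a n) (hmono : Monotone a) (hb : ∀ n : ℕ, a n ≤ C * (n : ℝ) ^ θ)
    (h : Tendsto (fun l : ℝ => (∑' n : ℕ, pw l n * a n) / l ^ θ) atTop (𝓝 β)) :
    Tendsto (fun n : ℕ => a n / (n : ℝ) ^ θ) atTop (𝓝 β) := by
  set F : ℝ → ℝ := fun l => ∑' n : ℕ, pw l n * a n with hF
  have hsum : ∀ l : ℝ, 0 ≤ l → Summable fun n : ℕ => pw l n * a n := by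
    intro l hl
    have hs := (summable_pw_rpow (lam := l) (θ := θ) hl h0.le h1).mul_left C
    refine Summable.of_nonneg_of_le (fun n => mul_nonneg (pw_nonneg hl n) (ha0 n)) (fun n => ?_) hs
    calc pw l n * a n ≤ pw l n * (C * (n : ℝ) ^ θ) :=
          mul_le_mul_of_nonneg_left (hb n) (pw_nonneg hl n)
      _ = C * (pw l n * (n : ℝ) ^ θ) := by ring
  -- upper inequality
  have hup : ∀ (ε : ℝ), 0 < ε → ∀ n : ℕ, 1 ≤ n →
      a n * (1 - (1 + ε) / (ε ^ 2 * n)) ≤ F (n * (1 + ε)) := by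
    intro ε hε n hn
    have hn0 : (0 : ℝ) < n := by exact_mod_cast hn
    set l : ℝ := n * (1 + ε) with hl
    have hl0 : 0 ≤ l := by positivity
    have hS : HasSum (fun k : ℕ => pw l k * (a n * (1 - ((k : ℝ) - l) ^ 2 / (ε * n) ^ 2)))
        (a n * (1 - (1 + ε) / (ε ^ 2 * n))) := by
      have h2 := ((hasSum_pw l).mul_left (a n)).add
        ((hasSum_pw_var l).mul_left (-(a n) / (ε * n) ^ 2))
      refine hasSum_congr' h2 (fun k => ?_) ?_
      · ring
      · rw [hl]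
        field_simp
        ring
    rw [← hS.tsum_eq]
    refine hS.summable.tsum_le_tsum (fun k => ?_) (hsum l hl0)
    refine mul_le_mul_of_nonneg_left ?_ (pw_nonneg hl0 k)
    by_cases hk : n ≤ k
    · have h3 : 0 ≤ ((k : ℝ) - l) ^ 2 / (ε * n) ^ 2 := by positivity
      have h4 := hmono hk
      have h5 := ha0 n
      nlinarith
    · have hk' : (k : ℝ) ≤ n := by
        have : k ≤ n := by omega
        exact_mod_cast this
      have h3 : ε * n ≤ l - k := by
        rw [hl]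
        nlinarith
      have h4 : (ε * n) ^ 2 ≤ ((k : ℝ) - l) ^ 2 := by
        have : ((k : ℝ) - l) ^ 2 = (l - k) ^ 2 := by ring
        rw [this]
        exact pow_le_pow_left₀ (by positivity) h3 2
      have h5 : 1 ≤ ((k : ℝ) - l) ^ 2 / (ε * n) ^ 2 := by
        rw [one_le_div (by positivity)]
        exact h4
      have h6 : a n * (1 - ((k : ℝ) - l) ^ 2 / (ε * n) ^ 2) ≤ 0 :=
        mul_nonpos_of_nonneg_of_nonpos (ha0 n) (by linarith)
      exact h6.trans (ha0 k)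
  -- lower inequality
  have hlow : ∀ (ε : ℝ), 0 < ε → ε < 1 → ∀ n : ℕ, 1 ≤ n →
      F (n * (1 - ε)) ≤ a n + C * (1 - ε) / ε ^ 2 := by
    intro ε hε hε1 n hn
    have hn0 : (0 : ℝ) < n := by exact_mod_cast hn
    set l : ℝ := n * (1 - ε) with hl
    have hl0 : 0 ≤ l := by
      rw [hl]
      exact mul_nonneg hn0.le (by linarith)
    have hS : HasSum (fun k : ℕ => pw l k * (a n + C * ((k : ℝ) - l) ^ 2 / (ε ^ 2 * n)))
        (a n + C * (1 - ε) / ε ^ 2) := by
      have h2 := ((hasSum_pw l).mul_left (a n)).add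
        ((hasSum_pw_var l).mul_left (C / (ε ^ 2 * n)))
      refine hasSum_congr' h2 (fun k => ?_) ?_
      · ring
      · rw [hl]
        field_simp
    change (∑' k : ℕ, pw l k * a k) ≤ _
    rw [← hS.tsum_eq]
    refine (hsum l hl0).tsum_le_tsum (fun k => ?_) hS.summable
    refine mul_le_mul_of_nonneg_left ?_ (pw_nonneg hl0 k)
    by_cases hk : k ≤ n
    · have h3 : 0 ≤ C * ((k : ℝ) - l) ^ 2 / (ε ^ 2 * n) := by positivity
      have h4 := hmono hk
      linarith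
    · have hk' : (n : ℝ) ≤ k := by
        have : n ≤ k := by omega
        exact_mod_cast this
      have hk1 : (1 : ℝ) ≤ k := by
        have : 1 ≤ k := by omega
        exact_mod_cast this
      have h3 : ε * k ≤ k - l := by
        rw [hl]
        nlinarith
      have h4 : (ε * k) ^ 2 ≤ ((k : ℝ) - l) ^ 2 := pow_le_pow_left₀ (by positivity) h3 2
      have h5 : (k : ℝ) ≤ ((k : ℝ) - l) ^ 2 / (ε ^ 2 * n) := by
        rw [le_div_iff₀ (by positivity)]
        calc (k : ℝ) * (ε ^ 2 * n) ≤ (k : ℝ) * (ε ^ 2 * k) := by gcongr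
          _ = (ε * k) ^ 2 := by ring
          _ ≤ _ := h4
      have h6 : (k : ℝ) ^ θ ≤ k := by
        calc (k : ℝ) ^ θ ≤ (k : ℝ) ^ (1 : ℝ) := Real.rpow_le_rpow_of_exponent_le hk1 h1
          _ = k := Real.rpow_one _
      calc a k ≤ C * (k : ℝ) ^ θ := hb k
        _ ≤ C * (((k : ℝ) - l) ^ 2 / (ε ^ 2 * n)) :=
            mul_le_mul_of_nonneg_left (h6.trans h5) hC
        _ = C * ((k : ℝ) - l) ^ 2 / (ε ^ 2 * n) := by ring
        _ ≤ _ := by linarith [ha0 n]
  rw [tendsto_order]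
  constructor
  · intro b hb'
    -- choose ε
    obtain ⟨ε, hε0, hε1, hε2⟩ : ∃ ε : ℝ, 0 < ε ∧ ε < 1 ∧ b < β * (1 - ε) := by
      refine ⟨min (1 / 2) ((β - b) / (2 * (β + 1))), ?_, ?_, ?_⟩
      · have : 0 < (β - b) / (2 * (β + 1)) := div_pos (by linarith) (by linarith)
        exact lt_min (by norm_num) this
      · exact (min_le_left _ _).trans_lt (by norm_num)
      · have h3 : min (1 / 2) ((β - b) / (2 * (β + 1))) ≤ (β - b) / (2 * (β + 1)) :=
          min_le_right _ _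
        have h4 : β * ((β - b) / (2 * (β + 1))) ≤ (β - b) / 2 := by
          rw [mul_div_assoc', div_le_div_iff₀ (by positivity) (by norm_num)]
          nlinarith
        have h5 : β * min (1 / 2) ((β - b) / (2 * (β + 1)))
            ≤ β * ((β - b) / (2 * (β + 1))) := mul_le_mul_of_nonneg_left h3 hβ
        nlinarith
    have hs : 0 < 1 - ε := by linarith
    have ht : Tendsto (fun n : ℕ => (n : ℝ) * (1 - ε)) atTop atTop :=
      tendsto_natCast_atTop_atTop.atTop_mul_const hs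
    have hlim : Tendsto (fun n : ℕ => F (n * (1 - ε)) / ((n : ℝ) * (1 - ε)) ^ θ * (1 - ε) ^ θ
        - C * (1 - ε) / ε ^ 2 / (n : ℝ) ^ θ) atTop (𝓝 (β * (1 - ε) ^ θ - 0)) := by
      refine ((h.comp ht).mul_const _).sub ?_
      refine Tendsto.div_atTop tendsto_const_nhds ?_
      exact (tendsto_rpow_atTop h0).comp tendsto_natCast_atTop_atTop
    have hpow : 1 - ε ≤ (1 - ε) ^ θ := by
      calc 1 - ε = (1 - ε) ^ (1 : ℝ) := (Real.rpow_one _).symm
        _ ≤ (1 - ε) ^ θ := Real.rpow_le_rpow_of_exponent_ge hs (by linarith) h1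
    have hlt : b < β * (1 - ε) ^ θ - 0 := by
      have := mul_le_mul_of_nonneg_left hpow hβ
      linarith
    filter_upwards [hlim.eventually (lt_mem_nhds hlt), eventually_ge_atTop 1] with n hn hn1
    have hn0 : (0 : ℝ) < n := by exact_mod_cast hn1
    have h3 := hlow ε hε0 hε1 n hn1
    refine hn.trans_le ?_
    have h4 : ((n : ℝ) * (1 - ε)) ^ θ = (n : ℝ) ^ θ * (1 - ε) ^ θ :=
      Real.mul_rpow hn0.le hs.le
    have h5 : 0 < (n : ℝ) ^ θ := Real.rpow_pos_of_pos hn0 θ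
    have h6 : 0 < (1 - ε) ^ θ := Real.rpow_pos_of_pos hs θ
    rw [h4]
    have h7 : F (n * (1 - ε)) / ((n : ℝ) ^ θ * (1 - ε) ^ θ) * (1 - ε) ^ θ
        - C * (1 - ε) / ε ^ 2 / (n : ℝ) ^ θ
        = (F (n * (1 - ε)) - C * (1 - ε) / ε ^ 2) / (n : ℝ) ^ θ := by
      field_simp
    rw [h7]
    apply div_le_div_of_nonneg_right _ h5.le
    linarith
  · intro b hb'
    obtain ⟨ε, hε0, hε2⟩ : ∃ ε : ℝ, 0 < ε ∧ β * (1 + ε) < b := by
      refine ⟨(b - β) / (2 * (β + 1)), div_pos (by linarith) (by linarith), ?_⟩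
      have h4 : β * ((b - β) / (2 * (β + 1))) ≤ (b - β) / 2 := by
        rw [mul_div_assoc', div_le_div_iff₀ (by positivity) (by norm_num)]
        nlinarith
      nlinarith
    have hs : 0 < 1 + ε := by linarith
    have ht : Tendsto (fun n : ℕ => (n : ℝ) * (1 + ε)) atTop atTop :=
      tendsto_natCast_atTop_atTop.atTop_mul_const hs
    have hden : Tendsto (fun n : ℕ => 1 - (1 + ε) / (ε ^ 2 * (n : ℝ))) atTop (𝓝 (1 - 0)) := by
      refine tendsto_const_nhds.sub ?_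
      refine Tendsto.div_atTop tendsto_const_nhds ?_
      exact tendsto_natCast_atTop_atTop.const_mul_atTop (by positivity)
    rw [sub_zero] at hden
    have hlim : Tendsto (fun n : ℕ => F (n * (1 + ε)) / ((n : ℝ) * (1 + ε)) ^ θ * (1 + ε) ^ θ
        / (1 - (1 + ε) / (ε ^ 2 * (n : ℝ)))) atTop (𝓝 (β * (1 + ε) ^ θ / 1)) :=
      ((h.comp ht).mul_const _).div hden one_ne_zero
    have hpow : (1 + ε) ^ θ ≤ 1 + ε := by
      calc (1 + ε) ^ θ ≤ (1 + ε) ^ (1 : ℝ) :=
            Real.rpow_le_rpow_of_exponent_le (by linarith) h1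
        _ = 1 + ε := Real.rpow_one _
    have hlt : β * (1 + ε) ^ θ / 1 < b := by
      have := mul_le_mul_of_nonneg_left hpow hβ
      linarith
    filter_upwards [hlim.eventually (gt_mem_nhds hlt), eventually_ge_atTop 1,
      hden.eventually (lt_mem_nhds (by norm_num : (0 : ℝ) < 1))] with n hn hn1 hn2
    have hn0 : (0 : ℝ) < n := by exact_mod_cast hn1
    have h3 := hup ε hε0 n hn1
    refine lt_of_le_of_lt ?_ hn
    have h4 : ((n : ℝ) * (1 + ε)) ^ θ = (n : ℝ) ^ θ * (1 + ε) ^ θ :=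
      Real.mul_rpow hn0.le hs.le
    have h5 : 0 < (n : ℝ) ^ θ := Real.rpow_pos_of_pos hn0 θ
    have h6 : 0 < (1 + ε) ^ θ := Real.rpow_pos_of_pos hs θ
    rw [h4, le_div_iff₀ hn2]
    have h7 : F (n * (1 + ε)) / ((n : ℝ) ^ θ * (1 + ε) ^ θ) * (1 + ε) ^ θ
        = F (n * (1 + ε)) / (n : ℝ) ^ θ := by
      field_simp
    rw [h7, div_mul_eq_mul_div]
    exact div_le_div_of_nonneg_right h3 h5.le

/-! ### the mean tour length -/

lemma lintegral_TE_pi (d : ℕ) (hd : 2 ≤ d) (n : ℕ) :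
    ∫⁻ x : Fin n → Vd d, TE (ms x) ∂(Measure.pi fun _ => uq d) = ENNReal.ofReal (meanTSP d n) := by
  unfold TE meanTSP
  simp only [TM_ms]
  rw [← ofReal_integral_eq_lintegral_ofReal (integrable_tsp d hd n)
    (Filter.Eventually.of_forall (fun x => tsp_nonneg x))]
  rfl

lemma meanTSP_nonneg (d n : ℕ) : 0 ≤ meanTSP d n :=
  integral_nonneg (fun x => tsp_nonneg x)

lemma meanTSP_mono (d : ℕ) (hd : 2 ≤ d) : Monotone (meanTSP d) := by
  refine monotone_nat_of_le_succ (fun n => ?_)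
  have hm : Measurable fun x : Fin (n + 1) → Vd d => TE (ms x) :=
    (measurable_TE d).comp measurable_ms
  rw [← ENNReal.ofReal_le_ofReal_iff (meanTSP_nonneg _ _), ← lintegral_TE_pi d hd,
    ← lintegral_TE_pi d hd, lintegral_pi_succAbove (uq d) 0 hm]
  calc ∫⁻ x : Fin n → Vd d, TE (ms x) ∂(Measure.pi fun _ => uq d)
      = ∫⁻ _a, ∫⁻ x : Fin n → Vd d, TE (ms x) ∂(Measure.pi fun _ => uq d) ∂(uq d) := by
        rw [lintegral_const, measure_univ, mul_one]
    _ ≤ _ := by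
        refine lintegral_mono (fun a => lintegral_mono (fun y => ?_))
        have h1 : ms ((0 : Fin (n + 1)).insertNth a y : Fin (n + 1) → Vd d) = a ::ₘ ms y := by
          rw [ms_cons]
          simp
        change TE (ms y) ≤ TE (ms ((0 : Fin (n + 1)).insertNth a y : Fin (n + 1) → Vd d))
        rw [h1]
        exact ENNReal.ofReal_le_ofReal (TM_le_cons a _)

lemma meanTSP_le (d : ℕ) (hd : 2 ≤ d) : ∃ C : ℝ, 0 ≤ C ∧ ∀ n : ℕ,
    meanTSP d n ≤ C * (n : ℝ) ^ (((d : ℝ) - 1) / (d : ℝ)) := by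
  obtain ⟨C, hC0, hC⟩ := tsp_le_rpow d hd
  refine ⟨C, hC0, fun n => ?_⟩
  have h0 : meanTSP d n = ∫ x : Fin n → Vd d, tsp x ∂(Measure.pi fun _ => uq d) := rfl
  rw [h0]
  have h1 : ∫ x : Fin n → Vd d, tsp x ∂(Measure.pi fun _ => uq d)
      ≤ ∫ _x : Fin n → Vd d, C * (n : ℝ) ^ (((d : ℝ) - 1) / (d : ℝ))
        ∂(Measure.pi fun _ => uq d) := by
    refine integral_mono_ae (integrable_tsp d hd n) (integrable_const _) ?_
    filter_upwards [ae_inj d (by omega) n] with x hx using hC n x hx.2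
  simpa using h1

/-- the Beardwood-Halton-Hammersley theorem in mean -/
theorem mean_limit (d : ℕ) (hd : 2 ≤ d) {β : ℝ} (hβ : 0 ≤ β)
    (h : Tendsto (fun l : ℝ => poisTSP d l / l ^ (((d : ℝ) - 1) / (d : ℝ))) atTop (𝓝 β)) :
    Tendsto (fun n : ℕ => meanTSP d n / (n : ℝ) ^ (((d : ℝ) - 1) / (d : ℝ))) atTop (𝓝 β) := by
  have hd' : (2 : ℝ) ≤ d := by exact_mod_cast hd
  obtain ⟨C, hC0, hC⟩ := meanTSP_le d hd
  exact poisson_tauber (div_pos (by linarith) (by linarith))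
    (by rw [div_le_one (by linarith)]; linarith) hβ hC0 (meanTSP_nonneg d) (meanTSP_mono d hd) hC h

end Pool.Agent.BHH57
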