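import Pool.Agent.BHH57.Tauber

/-!
MP_076557_pr, helper57: a variance bound for the optimal tour through independent points.
-/

set_option autoImplicit false

open MeasureTheory Set Filter Topology
open scoped ENNReal

namespace Pool.Agent.BHH57

open Pool.Agent.TSPd97 Pool.Agent.TSPd97.PO

variable {X : Type*} [PseudoMetricSpace X]

lemma clen_insert (a c : X) (l : List X) :
    clen (a :: c :: l) ≤ clen (c :: l) + 2 * dist a c := by
  rw [clen_cons, clen_cons]
  have h : (a :: c :: l).getLast (List.cons_ne_nil a _) =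
    (c :: l).getLast (List.cons_ne_nil c l) := by simp
  rw [h]
  simp only [chainSum]
  have h1 := dist_triangle ((c :: l).getLast (List.cons_ne_nil c l)) c a
  rw [dist_comm c a] at h1
  linarith

lemma TM_insert (a c : X) (s : Multiset X) (hc : c ∈ s) :
    TM (a ::ₘ s) ≤ TM s + 2 * dist a c := by
  obtain ⟨t, rfl⟩ := Multiset.exists_cons_of_mem hc
  obtain ⟨l, hl, hl2⟩ := exists_list_cons c t
  have h := TM_le_clen (a :: c :: l)
  rw [← Multiset.cons_coe, ← Multiset.cons_coe, hl] at h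
  rw [← hl2]
  exact h.trans (clen_insert a c l)

open Classical in
/-- a measurable retraction onto the cube -/
noncomputable def kap (d : ℕ) (x : Vd d) : Vd d := if x ∈ cube d then x else 0

lemma kap_mem (d : ℕ) (x : Vd d) : kap d x ∈ cube d := by
  unfold kap
  split_ifs with h
  · exact h
  · intro j
    simp

lemma kap_eq {d : ℕ} {x : Vd d} (h : x ∈ cube d) : kap d x = x := by
  unfold kap
  rw [if_pos h]

lemma measurable_kap (d : ℕ) : Measurable (kap d) := by
  classical
  unfold kap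
  exact Measurable.ite (measurableSet_cube d) measurable_id measurable_const

/-- the tour length through the retracted points -/
noncomputable def fk {d : ℕ} (s : Multiset (Vd d)) : ℝ := TM (s.map (kap d))

lemma fk_ms {d n : ℕ} (x : Fin n → Vd d) : fk (ms x) = tsp (fun i => kap d (x i)) := by
  unfold fk
  rw [map_ms, TM_ms]

lemma measurable_fk (d : ℕ) : Measurable (fk : Multiset (Vd d) → ℝ) := by
  apply measurable_of_ms
  intro n
  have h : Measurable fun (x : Fin n → Vd d) (i : Fin n) => kap d (x i) := by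
    rw [measurable_pi_iff]
    intro i
    have hi : Measurable fun x : Fin n → Vd d => x i := measurable_pi_apply i
    exact (measurable_kap d).comp hi
  have h2 : (fun x : Fin n → Vd d => fk (ms x))
      = (fun z : Fin n → Vd d => tsp z) ∘ (fun (x : Fin n → Vd d) (i : Fin n) => kap d (x i)) :=
    funext fun x => fk_ms x
  rw [h2]
  exact (measurable_tsp d n).comp h

lemma fk_nonneg {d : ℕ} (s : Multiset (Vd d)) : 0 ≤ fk s := TM_nonneg _

lemma fk_bound (d : ℕ) (hd : 2 ≤ d) : ∃ C : ℝ, 0 ≤ C ∧ ∀ s : Multiset (Vd d),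
    fk s ≤ C * (Multiset.card s : ℝ) ^ (((d : ℝ) - 1) / (d : ℝ)) := by
  obtain ⟨C, hC0, hC⟩ := tsp_le_rpow d hd
  refine ⟨C, hC0, fun s => ?_⟩
  obtain ⟨x, hx⟩ := exists_ms s
  generalize Multiset.card s = n at x hx ⊢
  subst hx
  rw [fk_ms]
  exact hC n (fun i => kap d (x i)) (fun i => kap_mem d _)

lemma fk_replace {d : ℕ} (a b : Vd d) (s : Multiset (Vd d)) :
    fk (a ::ₘ s) ≤ fk (b ::ₘ s) + 2 * Real.sqrt d := by
  unfold fk
  rw [Multiset.map_cons, Multiset.map_cons]
  have h1 := TM_replace (kap d b) (kap d a) (s.map (kap d))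
  have h2 := Patch.dist_cube_le (kap_mem d b) (kap_mem d a)
  linarith

lemma fk_near {d : ℕ} (a b c : Vd d) (s : Multiset (Vd d)) (hc : c ∈ s) {r : ℝ}
    (hr : dist (kap d a) (kap d c) ≤ r) :
    fk (a ::ₘ s) ≤ fk (b ::ₘ s) + 2 * r := by
  unfold fk
  rw [Multiset.map_cons, Multiset.map_cons]
  have h1 := TM_insert (kap d a) (kap d c) (s.map (kap d)) (Multiset.mem_map_of_mem _ hc)
  have h2 := TM_le_cons (kap d b) (s.map (kap d))
  linarith

/-! ### boxes -/

/-- a box of side `t` inside the unit cube which contains the point `a` of the cube -/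
def bx (d : ℕ) (a : Vd d) (t : ℝ) : Set (Vd d) :=
  {x | ∀ j, x j ∈ Set.Icc (min (a j) (1 - t)) (min (a j) (1 - t) + t)}

lemma measurableSet_bx (d : ℕ) (a : Vd d) (t : ℝ) : MeasurableSet (bx d a t) := by
  have : bx d a t = ⋂ j, {x : Vd d | x j ∈ Set.Icc (min (a j) (1 - t)) (min (a j) (1 - t) + t)} := by
    ext x
    simp [bx]
  rw [this]
  refine MeasurableSet.iInter fun j => ?_
  have hj : Measurable fun x : Vd d => x j := by fun_prop
  exact hj measurableSet_Icc

lemma bx_subset {d : ℕ} {a : Vd d} (ha : a ∈ cube d) {t : ℝ} (ht1 : t ≤ 1) :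
    bx d a t ⊆ cube d := by
  intro x hx j
  have h1 := hx j
  have h2 := ha j
  have h3 : 0 ≤ min (a j) (1 - t) := le_min h2.1 (by linarith)
  have h4 : min (a j) (1 - t) ≤ 1 - t := min_le_right _ _
  exact ⟨by linarith [h1.1], by linarith [h1.2]⟩

lemma uq_bx {d : ℕ} {a : Vd d} (ha : a ∈ cube d) {t : ℝ} (ht0 : 0 ≤ t) (ht1 : t ≤ 1) :
    uq d (bx d a t) = ENNReal.ofReal (t ^ d) := by
  unfold uq
  rw [Measure.restrict_apply (measurableSet_bx d a t), inter_eq_left.2 (bx_subset ha ht1)]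
  have h := GeoAux.volume_box (d := d)
    (fun j => Set.Icc (min (a j) (1 - t)) (min (a j) (1 - t) + t)) (fun _ => measurableSet_Icc)
  have h2 : bx d a t = {x : Vd d | ∀ i, x i ∈ Set.Icc (min (a i) (1 - t)) (min (a i) (1 - t) + t)} :=
    rfl
  rw [h2, h]
  simp [ENNReal.ofReal_pow ht0]

lemma dist_bx {d : ℕ} {a x : Vd d} (ha : a ∈ cube d) {t : ℝ} (ht0 : 0 ≤ t)
    (hx : x ∈ bx d a t) : dist a x ≤ Real.sqrt d * t := by
  rw [EuclideanSpace.dist_eq]
  have h1 : Real.sqrt d * t = Real.sqrt (d * t ^ 2) := by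
    rw [Real.sqrt_mul (by positivity), Real.sqrt_sq ht0]
  rw [h1]
  apply Real.sqrt_le_sqrt
  calc ∑ j : Fin d, dist (a j) (x j) ^ 2 ≤ ∑ _j : Fin d, t ^ 2 := by
        refine Finset.sum_le_sum fun j _ => pow_le_pow_left₀ dist_nonneg ?_ 2
        rw [Real.dist_eq, abs_le]
        have h2 := hx j
        have h3 := ha j
        have h4 : min (a j) (1 - t) ≤ a j := min_le_left _ _
        have h5 : a j ≤ min (a j) (1 - t) + t := by
          rcases min_choice (a j) (1 - t) with h | h
          · rw [h]; linarith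
          · rw [h]; linarith [h3.2]
        constructor <;> linarith [h2.1, h2.2]
    _ = d * t ^ 2 := by simp

/-! ### one step -/

/-- mean of the tour length when `m` random points are added -/
noncomputable def Gm (d : ℕ) (s : Multiset (Vd d)) (m : ℕ) : ℝ :=
  ∫ y : Fin m → Vd d, fk (s + ms y) ∂(Measure.pi fun _ => uq d)

lemma measurable_fk_add (d : ℕ) (s : Multiset (Vd d)) (m : ℕ) :
    Measurable fun y : Fin m → Vd d => fk (s + ms y) :=
  (measurable_fk d).comp (measurable_madd measurable_const measurable_ms)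

lemma integrable_fk_add (d : ℕ) (hd : 2 ≤ d) (s : Multiset (Vd d)) (m : ℕ) :
    Integrable (fun y : Fin m → Vd d => fk (s + ms y)) (Measure.pi fun _ => uq d) := by
  obtain ⟨C, hC0, hC⟩ := fk_bound d hd
  refine Integrable.of_bound (measurable_fk_add d s m).aestronglyMeasurable
    (C * ((Multiset.card s + m : ℕ) : ℝ) ^ (((d : ℝ) - 1) / (d : ℝ))) ?_
  refine Filter.Eventually.of_forall (fun y => ?_)
  rw [Real.norm_of_nonneg (fk_nonneg _)]
  have := hC (s + ms y)
  simpa using this

lemma prob_no_point (d : ℕ) (m : ℕ) {a : Vd d} (ha : a ∈ cube d) {t : ℝ} (ht0 : 0 ≤ t)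
    (ht1 : t ≤ 1) :
    ((Measure.pi fun _ : Fin m => uq d) {y | ∀ j, y j ∉ bx d a t}).toReal = (1 - t ^ d) ^ m := by
  have h1 : {y : Fin m → Vd d | ∀ j, y j ∉ bx d a t} = Set.pi univ (fun _ => (bx d a t)ᶜ) := by
    ext y
    simp
  rw [h1, Measure.pi_pi]
  have h2 : uq d (bx d a t)ᶜ = ENNReal.ofReal (1 - t ^ d) := by
    rw [prob_compl_eq_one_sub (measurableSet_bx d a t), uq_bx ha ht0 ht1,
      ENNReal.ofReal_sub 1 (by positivity), ENNReal.ofReal_one]
  rw [h2]
  have h3 : 0 ≤ 1 - t ^ d := by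
    have := pow_le_one₀ ht0 ht1 (n := d)
    linarith
  simp [ENNReal.toReal_ofReal h3]

lemma Gm_diff (d : ℕ) (hd : 2 ≤ d) (s : Multiset (Vd d)) (m : ℕ) (a b : Vd d) {t : ℝ}
    (ht0 : 0 ≤ t) (ht1 : t ≤ 1) :
    Gm d (a ::ₘ s) m - Gm d (b ::ₘ s) m ≤ 2 * Real.sqrt d * (t + (1 - t ^ d) ^ m) := by
  set μ : Measure (Fin m → Vd d) := Measure.pi fun _ => uq d with hμ
  set N : Set (Fin m → Vd d) := {y | ∀ j, y j ∉ bx d (kap d a) t} with hN
  have hNm : MeasurableSet N := by
    have : N = ⋂ j, {y : Fin m → Vd d | y j ∉ bx d (kap d a) t} := by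
      ext y
      simp [hN]
    rw [this]
    exact MeasurableSet.iInter fun j =>
      (show Measurable (fun y : Fin m → Vd d => y j) from measurable_pi_apply j)
        (measurableSet_bx d (kap d a) t).compl
  unfold Gm
  rw [← integral_sub (integrable_fk_add d hd _ m) (integrable_fk_add d hd _ m)]
  have h1 : ∀ y : Fin m → Vd d, fk (a ::ₘ s + ms y) - fk (b ::ₘ s + ms y)
      ≤ 2 * (Real.sqrt d * t) + N.indicator (fun _ => 2 * Real.sqrt d) y := by
    intro y
    rw [Multiset.cons_add, Multiset.cons_add]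
    by_cases hy : y ∈ N
    · rw [indicator_of_mem hy]
      have h2 := fk_replace a b (s + ms y)
      have h3 : 0 ≤ Real.sqrt d * t := by positivity
      linarith
    · rw [indicator_of_notMem hy]
      obtain ⟨j, hj⟩ : ∃ j, y j ∈ bx d (kap d a) t := by
        by_contra hcon
        apply hy
        intro j hj
        exact hcon ⟨j, hj⟩
      have hyc : y j ∈ cube d := bx_subset (kap_mem d a) ht1 hj
      have h4 : dist (kap d a) (kap d (y j)) ≤ Real.sqrt d * t := by
        rw [kap_eq hyc]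
        exact dist_bx (kap_mem d a) ht0 hj
      have h5 := fk_near a b (y j) (s + ms y)
        (Multiset.mem_add.2 (Or.inr (mem_ms.2 ⟨j, rfl⟩))) h4
      linarith
  calc ∫ y, (fk (a ::ₘ s + ms y) - fk (b ::ₘ s + ms y)) ∂μ
      ≤ ∫ y, (2 * (Real.sqrt d * t) + N.indicator (fun _ => 2 * Real.sqrt d) y) ∂μ := by
        refine integral_mono ((integrable_fk_add d hd _ m).sub (integrable_fk_add d hd _ m)) ?_ h1
        exact (integrable_const _).add ((integrable_const _).indicator hNm)
    _ = 2 * (Real.sqrt d * t) + (1 - t ^ d) ^ m * (2 * Real.sqrt d) := by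
        rw [integral_add (integrable_const _) ((integrable_const _).indicator hNm),
          integral_const, integral_indicator_const _ hNm]
        have h6 := prob_no_point d m (kap_mem d a) ht0 ht1
        simp only [probReal_univ, one_mul, smul_eq_mul]
        rw [Measure.real, h6]
    _ = _ := by ring

/-- the one step bound -/
noncomputable def Dm (d m : ℕ) : ℝ :=
  8 * Real.sqrt d * ((m : ℝ) + 1) ^ (-(1 / (2 * (d : ℝ))))

lemma abs_Gm_diff (d : ℕ) (hd : 2 ≤ d) (s : Multiset (Vd d)) (m : ℕ) (a b : Vd d) :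
    |Gm d (a ::ₘ s) m - Gm d (b ::ₘ s) m| ≤ Dm d m := by
  have hd0 : (0 : ℝ) < d := by
    have : 0 < d := by omega
    exact_mod_cast this
  have hd1 : (1 : ℝ) ≤ d := by
    have : 1 ≤ d := by omega
    exact_mod_cast this
  set t : ℝ := ((m : ℝ) + 1) ^ (-(1 / (2 * (d : ℝ)))) with ht
  have hm1 : (1 : ℝ) ≤ (m : ℝ) + 1 := by
    have : (0 : ℝ) ≤ m := by positivity
    linarith
  have hm0 : (0 : ℝ) < (m : ℝ) + 1 := by linarith
  have ht0 : 0 ≤ t := by positivity
  have ht1 : t ≤ 1 := by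
    apply Real.rpow_le_one_of_one_le_of_nonpos hm1
    have : 0 < 1 / (2 * (d : ℝ)) := by positivity
    linarith
  have htd : t ^ d = ((m : ℝ) + 1) ^ (-(1 / 2 : ℝ)) := by
    rw [ht, ← Real.rpow_natCast, ← Real.rpow_mul hm0.le]
    congr 1
    field_simp
  have hsq : Real.sqrt ((m : ℝ) + 1) * Real.sqrt ((m : ℝ) + 1) = (m : ℝ) + 1 :=
    Real.mul_self_sqrt hm0.le
  have hs1 : 1 ≤ Real.sqrt ((m : ℝ) + 1) := by
    rw [Real.one_le_sqrt]
    exact hm1
  have htd2 : t ^ d = 1 / Real.sqrt ((m : ℝ) + 1) := by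
    rw [htd, Real.rpow_neg hm0.le, ← Real.sqrt_eq_rpow, one_div]
  have hp : (1 - t ^ d) ^ m ≤ 3 * t := by
    have h1 : (1 - t ^ d) ^ m ≤ Real.exp (-(t ^ d) * m) := by
      have h2 : 1 - t ^ d ≤ Real.exp (-(t ^ d)) := by
        have := Real.add_one_le_exp (-(t ^ d))
        linarith
      have h3 : 0 ≤ 1 - t ^ d := by
        have := pow_le_one₀ ht0 ht1 (n := d)
        linarith
      calc (1 - t ^ d) ^ m ≤ (Real.exp (-(t ^ d))) ^ m := pow_le_pow_left₀ h3 h2 m
        _ = Real.exp (-(t ^ d) * m) := by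
            rw [← Real.exp_nat_mul]
            ring_nf
    have h4 : t ^ d * m ≥ Real.sqrt ((m : ℝ) + 1) - 1 := by
      rw [htd2]
      have h5 : (m : ℝ) = Real.sqrt ((m : ℝ) + 1) * Real.sqrt ((m : ℝ) + 1) - 1 := by
        rw [hsq]; ring
      have h6 : 1 / Real.sqrt ((m : ℝ) + 1) * (m : ℝ)
          = Real.sqrt ((m : ℝ) + 1) - 1 / Real.sqrt ((m : ℝ) + 1) := by
        conv_lhs => rw [h5]
        field_simp
        rw [Real.sq_sqrt (by positivity)]
        ring_nf
      rw [h6]
      have h7 : 1 / Real.sqrt ((m : ℝ) + 1) ≤ 1 := by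
        rw [div_le_one (by positivity)]
        exact hs1
      linarith
    have h8 : Real.exp (-(t ^ d) * m) ≤ Real.exp 1 * Real.exp (-Real.sqrt ((m : ℝ) + 1)) := by
      rw [← Real.exp_add]
      apply Real.exp_le_exp.2
      linarith
    have h9 : Real.exp (-Real.sqrt ((m : ℝ) + 1)) ≤ 1 / Real.sqrt ((m : ℝ) + 1) := by
      rw [Real.exp_neg, ← one_div]
      apply one_div_le_one_div_of_le (by positivity)
      have := Real.add_one_le_exp (Real.sqrt ((m : ℝ) + 1))
      linarith
    have h10 : Real.exp 1 ≤ 3 := by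
      have := Real.exp_one_lt_d9
      linarith
    have h11 : 1 / Real.sqrt ((m : ℝ) + 1) ≤ t := by
      rw [← htd2]
      have h12 : t ^ d ≤ t ^ 1 := pow_le_pow_of_le_one ht0 ht1 (by omega)
      simpa using h12
    calc (1 - t ^ d) ^ m ≤ _ := h1
      _ ≤ _ := h8
      _ ≤ 3 * (1 / Real.sqrt ((m : ℝ) + 1)) := by
          apply mul_le_mul h10 h9 (Real.exp_pos _).le (by norm_num)
      _ ≤ 3 * t := by linarith
  have hkey : ∀ a b : Vd d, Gm d (a ::ₘ s) m - Gm d (b ::ₘ s) m ≤ Dm d m := by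
    intro a b
    refine (Gm_diff d hd s m a b ht0 ht1).trans ?_
    unfold Dm
    rw [← ht]
    have h1 : 0 ≤ Real.sqrt d := Real.sqrt_nonneg _
    nlinarith [mul_le_mul_of_nonneg_left hp h1]
  rw [abs_le]
  constructor
  · have := hkey b a
    linarith
  · exact hkey a b

end Pool.Agent.BHH57
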