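import Pool.Agent.BHH57.Var

/-!
MP_076557_pr, helper57: the variance bound.
-/

set_option autoImplicit false

open MeasureTheory Set Filter Topology
open scoped ENNReal

namespace Pool.Agent.BHH57

open Pool.Agent.TSPd97 Pool.Agent.TSPd97.PO

lemma integral_pi_succ {d m : ℕ} {g : (Fin (m + 1) → Vd d) → ℝ}
    (hg : Integrable g (Measure.pi fun _ => uq d)) :
    ∫ x, g x ∂(Measure.pi fun _ => uq d)
      = ∫ a, ∫ y : Fin m → Vd d, g (Fin.cons a y) ∂(Measure.pi fun _ => uq d) ∂(uq d) := by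
  have h := (measurePreserving_piFinSuccAbove (fun _ : Fin (m + 1) => uq d) 0).symm
  have hi : Integrable (g ∘ (MeasurableEquiv.piFinSuccAbove (fun _ : Fin (m + 1) => Vd d) 0).symm)
      ((uq d).prod (Measure.pi fun _ : Fin m => uq d)) :=
    (h.integrable_comp_emb (MeasurableEquiv.measurableEmbedding _)).2 hg
  rw [← h.integral_comp' g]
  have h2 := integral_prod (μ := uq d) (ν := Measure.pi fun _ : Fin m => uq d) _ hi
  refine h2.trans ?_
  refine integral_congr_ae (Filter.Eventually.of_forall (fun a => ?_))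
  refine integral_congr_ae (Filter.Eventually.of_forall (fun y => ?_))
  change g ((0 : Fin (m + 1)).insertNth a y) = g (Fin.cons a y)
  rw [Fin.insertNth_zero']

lemma add_ms_cons {d m : ℕ} (s : Multiset (Vd d)) (a : Vd d) (y : Fin m → Vd d) :
    s + ms (Fin.cons a y : Fin (m + 1) → Vd d) = (a ::ₘ s) + ms y := by
  rw [ms_cons]
  simp only [Fin.cons_zero, Fin.cons_succ]
  rw [Multiset.add_cons, Multiset.cons_add]

lemma Gm_succ (d : ℕ) (hd : 2 ≤ d) (s : Multiset (Vd d)) (m : ℕ) :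
    Gm d s (m + 1) = ∫ a, Gm d (a ::ₘ s) m ∂(uq d) := by
  unfold Gm
  rw [integral_pi_succ (integrable_fk_add d hd s (m + 1))]
  refine integral_congr_ae (Filter.Eventually.of_forall (fun a => ?_))
  refine integral_congr_ae (Filter.Eventually.of_forall (fun y => ?_))
  change fk (s + ms (Fin.cons a y : Fin (m + 1) → Vd d)) = fk ((a ::ₘ s) + ms y)
  rw [add_ms_cons]

lemma measurable_Gm (d : ℕ) (s : Multiset (Vd d)) (m : ℕ) :
    StronglyMeasurable fun a : Vd d => Gm d (a ::ₘ s) m := by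
  unfold Gm
  have h : Measurable fun p : Vd d × (Fin m → Vd d) => fk ((p.1 ::ₘ s) + ms p.2) :=
    (measurable_fk d).comp (measurable_madd (measurable_mcons measurable_fst measurable_const)
      (measurable_ms.comp measurable_snd))
  exact h.stronglyMeasurable.integral_prod_right'

lemma integrable_Gm (d : ℕ) (hd : 2 ≤ d) (s : Multiset (Vd d)) (m : ℕ) :
    Integrable (fun a : Vd d => Gm d (a ::ₘ s) m) (uq d) := by
  obtain ⟨C, hC0, hC⟩ := fk_bound d hd
  refine Integrable.of_bound (measurable_Gm d s m).aestronglyMeasurable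
    (C * ((Multiset.card s : ℝ) + m + 1) ^ (((d : ℝ) - 1) / (d : ℝ))) ?_
  refine Filter.Eventually.of_forall (fun a => ?_)
  unfold Gm
  have h := norm_integral_le_of_norm_le_const (μ := Measure.pi fun _ : Fin m => uq d)
    (f := fun y : Fin m → Vd d => fk ((a ::ₘ s) + ms y))
    (C := C * ((Multiset.card s : ℝ) + m + 1) ^ (((d : ℝ) - 1) / (d : ℝ)))
    (Filter.Eventually.of_forall (fun y => by
      rw [Real.norm_of_nonneg (fk_nonneg _)]
      have := hC ((a ::ₘ s) + ms y)
      simpa using this))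
  simpa using h

lemma abs_Gm_sub (d : ℕ) (hd : 2 ≤ d) (s : Multiset (Vd d)) (m : ℕ) (a : Vd d) :
    |Gm d (a ::ₘ s) m - Gm d s (m + 1)| ≤ Dm d m := by
  rw [Gm_succ d hd]
  have h1 : Gm d (a ::ₘ s) m - ∫ b, Gm d (b ::ₘ s) m ∂(uq d)
      = ∫ b, (Gm d (a ::ₘ s) m - Gm d (b ::ₘ s) m) ∂(uq d) := by
    rw [integral_sub (integrable_const _) (integrable_Gm d hd s m)]
    simp
  rw [h1]
  have h := norm_integral_le_of_norm_le_const (μ := uq d)
    (f := fun b : Vd d => Gm d (a ::ₘ s) m - Gm d (b ::ₘ s) m) (C := Dm d m)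
    (Filter.Eventually.of_forall (fun b => abs_Gm_diff d hd s m a b))
  simpa using h

theorem var_fk (d : ℕ) (hd : 2 ≤ d) : ∀ (m : ℕ) (s : Multiset (Vd d)),
    ∫ y : Fin m → Vd d, (fk (s + ms y) - Gm d s m) ^ 2 ∂(Measure.pi fun _ => uq d)
      ≤ ∑ k ∈ Finset.range m, (Dm d k) ^ 2 := by
  intro m
  induction m with
  | zero =>
    intro s
    have h1 : ∀ y : Fin 0 → Vd d, fk (s + ms y) = fk s := by
      intro y
      rw [ms_zero, add_zero]
    have h2 : Gm d s 0 = fk s := by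
      unfold Gm
      simp only [h1]
      simp
    simp only [h1, h2]
    simp
  | succ m ih =>
    intro s
    set c : ℝ := Gm d s (m + 1) with hc
    obtain ⟨C, hC0, hC⟩ := fk_bound d hd
    -- integrability of the square
    have hint : ∀ (k : ℕ) (t : Multiset (Vd d)) (e : ℝ),
        Integrable (fun y : Fin k → Vd d => (fk (t + ms y) - e) ^ 2)
          (Measure.pi fun _ => uq d) := by
      intro k t e
      refine Integrable.of_bound
        (((measurable_fk_add d t k).sub_const e).pow_const 2).aestronglyMeasurable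
        ((C * ((Multiset.card t + k : ℕ) : ℝ) ^ (((d : ℝ) - 1) / (d : ℝ)) + |e|) ^ 2) ?_
      refine Filter.Eventually.of_forall (fun y => ?_)
      rw [Real.norm_of_nonneg (by positivity), ← sq_abs]
      refine pow_le_pow_left₀ (abs_nonneg _) ?_ 2
      calc |fk (t + ms y) - e| ≤ |fk (t + ms y)| + |e| := abs_sub _ _
        _ ≤ _ := by
            rw [abs_of_nonneg (fk_nonneg _)]
            have := hC (t + ms y)
            simp only [Multiset.card_add, card_ms] at this
            linarith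
    rw [integral_pi_succ (hint (m + 1) s c)]
    have hb : ∀ a : Vd d, ∫ y : Fin m → Vd d,
        (fk (s + ms (Fin.cons a y : Fin (m + 1) → Vd d)) - c) ^ 2 ∂(Measure.pi fun _ => uq d)
        ≤ ∑ k ∈ Finset.range (m + 1), (Dm d k) ^ 2 := by
      intro a
      simp only [add_ms_cons]
      have h1 : ∀ y : Fin m → Vd d, (fk ((a ::ₘ s) + ms y) - c) ^ 2
          = (fk ((a ::ₘ s) + ms y) - Gm d (a ::ₘ s) m) ^ 2
            + (2 * (Gm d (a ::ₘ s) m - c)) * (fk ((a ::ₘ s) + ms y) - Gm d (a ::ₘ s) m)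
            + (Gm d (a ::ₘ s) m - c) ^ 2 := by
        intro y
        ring
      have hi1 := hint m (a ::ₘ s) (Gm d (a ::ₘ s) m)
      have hi2 : Integrable (fun y : Fin m → Vd d =>
          (2 * (Gm d (a ::ₘ s) m - c)) * (fk ((a ::ₘ s) + ms y) - Gm d (a ::ₘ s) m))
          (Measure.pi fun _ => uq d) :=
        ((integrable_fk_add d hd _ m).sub (integrable_const _)).const_mul _
      have h2 : ∫ y : Fin m → Vd d, (fk ((a ::ₘ s) + ms y) - Gm d (a ::ₘ s) m)
          ∂(Measure.pi fun _ => uq d) = 0 := by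
        rw [integral_sub (integrable_fk_add d hd _ m) (integrable_const _)]
        unfold Gm
        simp
      simp only [h1]
      have e1 : ∫ y : Fin m → Vd d, ((fk ((a ::ₘ s) + ms y) - Gm d (a ::ₘ s) m) ^ 2
            + (2 * (Gm d (a ::ₘ s) m - c)) * (fk ((a ::ₘ s) + ms y) - Gm d (a ::ₘ s) m)
            + (Gm d (a ::ₘ s) m - c) ^ 2) ∂(Measure.pi fun _ => uq d)
          = ∫ y : Fin m → Vd d, ((fk ((a ::ₘ s) + ms y) - Gm d (a ::ₘ s) m) ^ 2
            + (2 * (Gm d (a ::ₘ s) m - c)) * (fk ((a ::ₘ s) + ms y) - Gm d (a ::ₘ s) m))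
              ∂(Measure.pi fun _ => uq d)
            + ∫ _y : Fin m → Vd d, (Gm d (a ::ₘ s) m - c) ^ 2 ∂(Measure.pi fun _ => uq d) :=
        integral_add (hi1.add hi2) (integrable_const _)
      rw [e1, integral_add hi1 hi2,
        integral_const_mul, h2, integral_const]
      have h3 := ih (a ::ₘ s)
      have h4 := abs_Gm_sub d hd s m a
      have h5 : (Gm d (a ::ₘ s) m - c) ^ 2 ≤ (Dm d m) ^ 2 := by
        rw [← sq_abs]
        exact pow_le_pow_left₀ (abs_nonneg _) h4 2
      rw [Finset.sum_range_succ]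
      simp only [probReal_univ, smul_eq_mul, one_mul, mul_zero, add_zero]
      linarith
    calc ∫ a, ∫ y : Fin m → Vd d,
          (fk (s + ms (Fin.cons a y : Fin (m + 1) → Vd d)) - c) ^ 2
            ∂(Measure.pi fun _ => uq d) ∂(uq d)
        ≤ ∫ _a, (∑ k ∈ Finset.range (m + 1), (Dm d k) ^ 2) ∂(uq d) := by
          refine integral_mono_of_nonneg (Filter.Eventually.of_forall (fun a => ?_))
            (integrable_const _) (Filter.Eventually.of_forall hb)
          exact integral_nonneg (fun y => sq_nonneg _)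
      _ = _ := by simp

/-- sum of the one step bounds -/
lemma sum_rpow_le {a : ℝ} (ha0 : 0 ≤ a) (ha1 : a ≤ 1 / 2) (n : ℕ) :
    ∑ k ∈ Finset.range n, ((k : ℝ) + 1) ^ (-a) ≤ 2 * (n : ℝ) ^ (1 - a) := by
  induction n with
  | zero =>
    simp only [Finset.range_zero, Finset.sum_empty]
    positivity
  | succ n ih =>
    rw [Finset.sum_range_succ]
    have hn0 : (0 : ℝ) ≤ n := by positivity
    have hn1 : (0 : ℝ) < (n : ℝ) + 1 := by positivity
    have h1 : (n : ℝ) ^ (1 - a) ≤ ((n : ℝ) + 1) ^ (1 - a) * (1 - (1 - a) / ((n : ℝ) + 1)) := by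
      have h2 := rpow_one_add_le_one_add_mul_self (s := -(1 / ((n : ℝ) + 1))) (p := 1 - a)
        (by
          have : 1 / ((n : ℝ) + 1) ≤ 1 := by
            rw [div_le_one hn1]
            linarith
          linarith) (by linarith) (by linarith)
      have h3 : (n : ℝ) = ((n : ℝ) + 1) * (1 + -(1 / ((n : ℝ) + 1))) := by
        field_simp
        ring
      have h4 : 0 ≤ 1 + -(1 / ((n : ℝ) + 1)) := by
        have : 1 / ((n : ℝ) + 1) ≤ 1 := by
          rw [div_le_one hn1]
          linarith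
        linarith
      calc (n : ℝ) ^ (1 - a) = (((n : ℝ) + 1) * (1 + -(1 / ((n : ℝ) + 1)))) ^ (1 - a) := by
            rw [← h3]
        _ = ((n : ℝ) + 1) ^ (1 - a) * (1 + -(1 / ((n : ℝ) + 1))) ^ (1 - a) :=
            Real.mul_rpow hn1.le h4
        _ ≤ ((n : ℝ) + 1) ^ (1 - a) * (1 + (1 - a) * -(1 / ((n : ℝ) + 1))) :=
            mul_le_mul_of_nonneg_left h2 (by positivity)
        _ = _ := by ring
    have h5 : ((n : ℝ) + 1) ^ (1 - a) = ((n : ℝ) + 1) * ((n : ℝ) + 1) ^ (-a) := by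
      rw [sub_eq_add_neg, Real.rpow_add hn1, Real.rpow_one]
    have h6 : 0 ≤ ((n : ℝ) + 1) ^ (-a) := by positivity
    push_cast
    rw [h5] at h1 ⊢
    have h7 : ((n : ℝ) + 1) * ((n : ℝ) + 1) ^ (-a) * (1 - (1 - a) / ((n : ℝ) + 1))
        = ((n : ℝ) + 1) * ((n : ℝ) + 1) ^ (-a) - (1 - a) * ((n : ℝ) + 1) ^ (-a) := by
      field_simp
    rw [h7] at h1
    nlinarith

theorem var_tsp (d : ℕ) (hd : 2 ≤ d) (n : ℕ) :
    ∫ y : Fin n → Vd d, (tsp y - meanTSP d n) ^ 2 ∂(Measure.pi fun _ => uq d)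
      ≤ 128 * d * (n : ℝ) ^ (((d : ℝ) - 1) / (d : ℝ)) := by
  have hd' : (2 : ℝ) ≤ d := by exact_mod_cast hd
  have hd0 : (0 : ℝ) < d := by linarith
  have hae : ∀ᵐ y : Fin n → Vd d ∂(Measure.pi fun _ => uq d), fk ((0 : Multiset (Vd d)) + ms y)
      = tsp y := by
    filter_upwards [ae_inj d (by omega) n] with y hy
    rw [zero_add, fk_ms]
    congr 1
    funext i
    exact kap_eq (hy.2 i)
  have hG : Gm d 0 n = meanTSP d n := by
    unfold Gm
    exact integral_congr_ae hae
  have h1 := var_fk d hd n 0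
  rw [hG] at h1
  have h2 : ∫ y : Fin n → Vd d, (tsp y - meanTSP d n) ^ 2 ∂(Measure.pi fun _ => uq d)
      = ∫ y : Fin n → Vd d, (fk ((0 : Multiset (Vd d)) + ms y) - meanTSP d n) ^ 2
        ∂(Measure.pi fun _ => uq d) := by
    refine integral_congr_ae ?_
    filter_upwards [hae] with y hy
    rw [hy]
  rw [h2]
  refine h1.trans ?_
  have h3 : ∀ k : ℕ, (Dm d k) ^ 2 = 64 * d * ((k : ℝ) + 1) ^ (-(1 / (d : ℝ))) := by
    intro k
    unfold Dm
    have hk : (0 : ℝ) < (k : ℝ) + 1 := by positivity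
    rw [mul_pow, mul_pow, Real.sq_sqrt hd0.le, ← Real.rpow_natCast (((k : ℝ) + 1) ^ _) 2,
      ← Real.rpow_mul hk.le]
    have : -(1 / (2 * (d : ℝ))) * ((2 : ℕ) : ℝ) = -(1 / (d : ℝ)) := by
      push_cast
      field_simp
    rw [this]
    norm_num
  simp only [h3]
  rw [← Finset.mul_sum]
  have h4 := sum_rpow_le (a := 1 / (d : ℝ)) (by positivity)
    (by rw [div_le_div_iff₀ hd0 (by norm_num)]; linarith) n
  have h5 : 1 - 1 / (d : ℝ) = ((d : ℝ) - 1) / (d : ℝ) := by
    field_simp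
  rw [h5] at h4
  calc 64 * (d : ℝ) * ∑ k ∈ Finset.range n, ((k : ℝ) + 1) ^ (-(1 / (d : ℝ)))
      ≤ 64 * d * (2 * (n : ℝ) ^ (((d : ℝ) - 1) / (d : ℝ))) :=
        mul_le_mul_of_nonneg_left h4 (by positivity)
    _ = _ := by ring

end Pool.Agent.BHH57
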